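import Mathlib

/-!
Independence of disjoint blocks of coordinates, and joining two product measures into one.
-/

namespace Q291.GW

open MeasureTheory ProbabilityTheory Set Measure

/-- `E` depends only on the coordinates in `S`. -/
def DepOn {ι X : Type*} (S : Set ι) (E : Set (ι → X)) : Prop :=
  ∀ a b : ι → X, (∀ i ∈ S, a i = b i) → (a ∈ E → b ∈ E)

lemma DepOn.mono {ι X : Type*} {S T : Set ι} {E : Set (ι → X)} (h : DepOn S E) (hST : S ⊆ T) :
    DepOn T E := fun a b hab => h a b fun i hi => hab i (hST hi)

section
variable {ι X : Type*} [MeasurableSpace X]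

/-- The sigma-algebra of the coordinates in `S`. -/
abbrev blk (ι X : Type*) [MeasurableSpace X] (S : Set ι) : MeasurableSpace (ι → X) :=
  ⨆ i ∈ S, (inferInstance : MeasurableSpace X).comap (fun η : ι → X => η i)

lemma blk_le (S : Set ι) : blk ι X S ≤ MeasurableSpace.pi := by
  refine iSup₂_le fun i _ => ?_
  exact (measurable_pi_apply i).comap_le

lemma meas_of_dep [Nonempty X] {S : Set ι} {E : Set (ι → X)} (hE : MeasurableSet E)
    (hd : DepOn S E) : MeasurableSet[blk ι X S] E := by
  classical
  obtain ⟨x0⟩ := ‹Nonempty X›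
  let g : (ι → X) → (ι → X) := fun η i => if i ∈ S then η i else x0
  have hg : Measurable[blk ι X S, MeasurableSpace.pi] g := by
    refine @measurable_pi_lambda _ _ _ (blk ι X S) _ _ fun i => ?_
    by_cases hi : i ∈ S
    · simp only [g, hi, if_true]
      refine Measurable.mono (comap_measurable (fun η : ι → X => η i)) ?_ le_rfl
      exact le_iSup₂ (f := fun i (_ : i ∈ S) =>
        (inferInstance : MeasurableSpace X).comap (fun η : ι → X => η i)) i hi
    · simp only [g, hi, if_false]
      exact @measurable_const _ _ _ (blk ι X S) _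
  have : E = g ⁻¹' E := by
    ext η
    constructor
    · exact hd η (g η) fun i hi => by simp [g, hi]
    · exact hd (g η) η fun i hi => by simp [g, hi]
  rw [this]
  exact hg hE

theorem indep_blk (μ : ι → Measure X) [∀ i, IsProbabilityMeasure (μ i)] {S T : Set ι}
    (hST : Disjoint S T) : Indep (blk ι X S) (blk ι X T) (infinitePi μ) := by
  have h : iIndepFun (fun (i : ι) (η : ι → X) => η i) (infinitePi μ) :=
    iIndepFun_infinitePi (P := μ) (X := fun _ x => x) (fun i => measurable_id)
  rw [iIndepFun_iff_iIndep] at h
  exact indep_iSup_of_disjoint (fun i => (measurable_pi_apply i).comap_le) h hST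

theorem indep_dep [Nonempty X] (μ : ι → Measure X) [∀ i, IsProbabilityMeasure (μ i)] {S T : Set ι}
    (hST : Disjoint S T) {E F : Set (ι → X)} (hE : MeasurableSet E) (hF : MeasurableSet F)
    (dE : DepOn S E) (dF : DepOn T F) :
    infinitePi μ (E ∩ F) = infinitePi μ E * infinitePi μ F :=
  (Indep_iff _ _ _).1 (indep_blk μ hST) E F (meas_of_dep hE dE) (meas_of_dep hF dF)

end

/-- The product of two product measures over the same index set is a product measure. -/
theorem joint {ι A B : Type*} [MeasurableSpace A] [MeasurableSpace B] (μ : ι → Measure A)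
    (ν : ι → Measure B) [∀ i, IsProbabilityMeasure (μ i)] [∀ i, IsProbabilityMeasure (ν i)] :
    ((infinitePi μ).prod (infinitePi ν)).map (fun z i => (z.1 i, z.2 i)) =
      infinitePi (fun i => (μ i).prod (ν i)) := by
  classical
  have hm : Measurable (fun (z : (ι → A) × (ι → B)) i => (z.1 i, z.2 i)) := by fun_prop
  refine (isProjectiveLimit_infinitePi _).unique ?_ |>.symm
  intro s
  symm
  refine Measure.pi_eq_generateFrom (ι := s) (α := fun _ => A × B)
    (μ := fun i : s => (μ i).prod (ν i))
    (C := fun _ => image2 (· ×ˢ ·) {a : Set A | MeasurableSet a} {b : Set B | MeasurableSet b})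
    (fun i => generateFrom_prod) (fun i => isPiSystem_prod)
    (fun i => (μ i).toFiniteSpanningSetsIn.prod (ν i).toFiniteSpanningSetsIn) ?_
  intro t ht
  choose a ha b hb hab using ht
  have ht' : ∀ i, t i = a i ×ˢ b i := fun i => (hab i).symm
  have hmt : MeasurableSet (pi univ t) := by
    refine MeasurableSet.univ_pi fun i => ?_
    rw [ht']
    exact (ha i).prod (hb i)
  rw [Measure.map_map (by fun_prop) hm, Measure.map_apply (by fun_prop) hmt]
  let a' : ι → Set A := fun i => if h : i ∈ s then a ⟨i, h⟩ else univ
  let b' : ι → Set B := fun i => if h : i ∈ s then b ⟨i, h⟩ else univ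
  have hpre : (s.restrict ∘ fun (z : (ι → A) × (ι → B)) i => (z.1 i, z.2 i)) ⁻¹' pi univ t =
      (Set.pi s a') ×ˢ (Set.pi s b') := by
    ext z
    simp only [mem_preimage, mem_pi, mem_univ, forall_true_left, Function.comp, mem_prod, ht']
    constructor
    · intro h
      refine ⟨fun i hi => ?_, fun i hi => ?_⟩
      · have := (h ⟨i, hi⟩).1
        have hi' : i ∈ s := hi
        simpa [a', hi'] using this
      · have := (h ⟨i, hi⟩).2
        have hi' : i ∈ s := hi
        simpa [b', hi'] using this
    · rintro ⟨h1, h2⟩ i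
      have h3 := h1 i.1 i.2
      have h4 := h2 i.1 i.2
      simp only [a', b', i.2, dif_pos] at h3 h4
      exact ⟨h3, h4⟩
  rw [hpre, Measure.prod_prod, infinitePi_pi, infinitePi_pi, ← Finset.prod_mul_distrib]
  · rw [← Finset.prod_coe_sort s (fun i => μ i (a' i) * ν i (b' i))]
    refine Finset.prod_congr rfl fun i _ => ?_
    rw [ht', Measure.prod_prod]
    simp [a', b']
  · intro i hi
    simp only [b', hi, dif_pos]
    exact hb _
  · intro i hi
    simp only [a', hi, dif_pos]
    exact ha _

end Q291.GW
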