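import Pool.Agent.Q291.GW.Model

/-!
The annealed estimates: healthy vertices have probability bounded below, and a good vertex
exists almost surely on an infinite tree.
-/

namespace Q291.GW

open MeasureTheory ProbabilityTheory Set Measure
open scoped ENNReal

/-- The joint law of offspring numbers and initial infections. -/
noncomputable def jl (ξ : PMF ℕ) (p : unitInterval) : Measure (List ℕ → ℕ × Bool) :=
  infinitePi fun _ => ξ.toMeasure.prod (bernoulliMeasure true false p)

instance (ξ : PMF ℕ) (p : unitInterval) : IsProbabilityMeasure (jl ξ p) := by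
  unfold jl; infer_instance

lemma jl_indep (ξ : PMF ℕ) (p : unitInterval) {S T : Set (List ℕ)} (hST : Disjoint S T)
    {E F : Set (List ℕ → ℕ × Bool)} (hE : MeasurableSet E) (hF : MeasurableSet F)
    (dE : DepOn S E) (dF : DepOn T F) : jl ξ p (E ∩ F) = jl ξ p E * jl ξ p F :=
  indep_dep _ hST hE hF dE dF

lemma jl_single (ξ : PMF ℕ) (p : unitInterval) (v : List ℕ) (k : ℕ) :
    jl ξ p {η | η v = (k, false)} = ξ k * ENNReal.ofReal (1 - p) := by
  have h1 : {η : List ℕ → ℕ × Bool | η v = (k, false)} = (fun η => η v) ⁻¹' {(k, false)} := rfl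
  have h2 : (jl ξ p).map (fun η => η v) = ξ.toMeasure.prod (bernoulliMeasure true false p) := by
    unfold jl
    exact infinitePi_map_eval (fun _ => ξ.toMeasure.prod (bernoulliMeasure true false p)) v
  rw [h1, ← Measure.map_apply (measurable_pi_apply v) (measurableSet_singleton _), h2,
    ← singleton_prod_singleton, Measure.prod_prod, PMF.toMeasure_apply_singleton _ _
    (measurableSet_singleton _)]
  congr 1
  rw [bernoulliMeasure_apply_of_notMem_of_mem _ (measurableSet_singleton _) (by simp) (by simp)]
  rw [ENNReal.ofReal]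
  congr 1
  ext
  simp
  exact p.2.2

lemma cnt_tail {Ω : Type*} [MeasurableSpace Ω] (P : Measure Ω) [IsProbabilityMeasure P]
    {g : ℕ → Ω → Bool} (hg : ∀ i, Measurable (g i)) {y : ℝ} (hy0 : 0 ≤ y) (hy1 : y ≤ 1)
    (hy : ∀ i, P.real {η | g i η = false} ≤ y)
    (hind : ∀ k s, P.real ({η | s ≤ cnt (fun i => g i η) k} ∩ {η | g k η = false}) =
      P.real {η | s ≤ cnt (fun i => g i η) k} * P.real {η | g k η = false}) (k s : ℕ) :
    P.real {η | s ≤ cnt (fun i => g i η) k} ≤ tl y k s := by
  induction k generalizing s with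
  | zero =>
    cases s with
    | zero => simp
    | succ s => simp [cnt]
  | succ k ih =>
    cases s with
    | zero => simp
    | succ s =>
      have hm : ∀ s, MeasurableSet {η | s ≤ cnt (fun i => g i η) k} := fun s =>
        (cnt_meas hg k) measurableSet_Ici
      have hmg : MeasurableSet {η | g k η = false} := hg k (measurableSet_singleton false)
      have hset : {η | s + 1 ≤ cnt (fun i => g i η) (k + 1)} =
          {η | s + 1 ≤ cnt (fun i => g i η) k} ∪
            ({η | s ≤ cnt (fun i => g i η) k} ∩ {η | g k η = false}) := by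
        ext η
        simp only [cnt, mem_ofPred_eq, mem_union, mem_inter_iff]
        rcases Bool.eq_false_or_eq_true (g k η) with h | h <;> simp [h] <;> omega
      have hint : {η | s + 1 ≤ cnt (fun i => g i η) k} ∩
            ({η | s ≤ cnt (fun i => g i η) k} ∩ {η | g k η = false}) =
          {η | s + 1 ≤ cnt (fun i => g i η) k} ∩ {η | g k η = false} := by
        ext η
        simp only [mem_ofPred_eq, mem_inter_iff]
        constructor
        · rintro ⟨h1, _, h2⟩; exact ⟨h1, h2⟩
        · rintro ⟨h1, h2⟩; exact ⟨h1, by omega, h2⟩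
      have h1 := measureReal_union_add_inter (μ := P) (s := {η | s + 1 ≤ cnt (fun i => g i η) k})
        ((hm s).inter hmg)
      rw [← hset, hint, hind k (s + 1), hind k s] at h1
      have h2 := ih s
      have h3 := ih (s + 1)
      have h4 : P.real {η | s + 1 ≤ cnt (fun i => g i η) k} ≤
          P.real {η | s ≤ cnt (fun i => g i η) k} := by
        refine measureReal_mono (fun η h => ?_) (measure_ne_top _ _)
        simp only [mem_ofPred_eq] at h ⊢
        omega
      have h5 := hy k
      rw [tl_succ]
      set T0 := P.real {η | s ≤ cnt (fun i => g i η) k}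
      set T1 := P.real {η | s + 1 ≤ cnt (fun i => g i η) k}
      set q := P.real {η | g k η = false}
      have h6 : q * (T0 - T1) ≤ y * (T0 - T1) := mul_le_mul_of_nonneg_right h5 (by linarith)
      have h7 : (1 - y) * T1 ≤ (1 - y) * tl y k (s + 1) :=
        mul_le_mul_of_nonneg_left h3 (by linarith)
      have h8 : y * T0 ≤ y * tl y k s := mul_le_mul_of_nonneg_left h2 hy0
      linarith

/-- Different children have disjoint subtrees. -/
lemma sub_disj {i k : ℕ} (h : i ≠ k) (v : List ℕ) : Disjoint (sub (i :: v)) (sub (k :: v)) := by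
  rw [Set.disjoint_left]
  intro w h1 h2
  have h1' : (i :: v) <:+ w := h1
  have h2' : (k :: v) <:+ w := h2
  have h3 := List.suffix_of_suffix_length_le h1' h2' (by simp)
  have h4 := h3.eq_of_length (by simp)
  exact h (List.cons.inj h4).1

lemma not_sub_child (i : ℕ) (v : List ℕ) : v ∉ sub (i :: v) := by
  intro h
  have h' : (i :: v) <:+ v := h
  have := h'.length_le
  simp at this

/-- The union of the subtrees of the first `k` children. -/
def subs (v : List ℕ) (k : ℕ) : Set (List ℕ) := {w | ∃ i < k, w ∈ sub (i :: v)}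

lemma subs_disj (v : List ℕ) (k : ℕ) : Disjoint (subs v k) (sub (k :: v)) := by
  rw [Set.disjoint_left]
  rintro w ⟨i, hi, h1⟩ h2
  exact Set.disjoint_left.1 (sub_disj (by omega : i ≠ k) v) h1 h2

lemma subs_disj' (v : List ℕ) (k : ℕ) : Disjoint {v} (subs v k) := by
  rw [Set.disjoint_left]
  rintro w rfl ⟨i, hi, h1⟩
  exact not_sub_child i _ h1

lemma cnt_dep (r n : ℕ) (v : List ℕ) (k s : ℕ) :
    DepOn (subs v k) {η | s ≤ cnt (fun i => hb r n η (i :: v)) k} := by
  intro a b hab h
  simp only [mem_ofPred_eq] at h ⊢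
  rw [← cnt_congr (b := fun i => hb r n a (i :: v))]
  · exact h
  · intro i hi
    exact hb_dep r n (i :: v) fun w hw => hab w ⟨i, hi, hw⟩

section est
variable {ξ : PMF ℕ} {p : unitInterval} {r : ℕ} {x : ℝ}

lemma jl_healthy (ξ : PMF ℕ) (p : unitInterval) (v : List ℕ) :
    jl ξ p {η | (η v).2 = false} = ENNReal.ofReal (1 - p) := by
  have h1 : {η : List ℕ → ℕ × Bool | (η v).2 = false} = ⋃ k : ℕ, {η | η v = (k, false)} := by
    ext η
    simp only [mem_ofPred_eq, mem_iUnion]
    constructor
    · intro h; exact ⟨(η v).1, by rw [← h]⟩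
    · rintro ⟨k, hk⟩; rw [hk]
  have hm : ∀ k : ℕ, MeasurableSet {η : List ℕ → ℕ × Bool | η v = (k, false)} := fun k =>
    (measurable_pi_apply v) (measurableSet_singleton _)
  rw [h1, measure_iUnion _ hm]
  · simp only [jl_single]
    rw [ENNReal.tsum_mul_right, ξ.tsum_coe, one_mul]
  · intro i j hij
    rw [Function.onFun, Set.disjoint_left]
    intro η h1 h2
    simp only [mem_ofPred_eq] at h1 h2
    rw [h1] at h2
    exact hij (congrArg Prod.fst h2)

theorem prob_hb (hx0 : 0 ≤ x) (hx1 : x ≤ 1)
    (hx : ENNReal.ofReal x ≤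
      ENNReal.ofReal (1 - p) * ∑' k, ξ k * ENNReal.ofReal (1 - tl (1 - x) k r)) (n : ℕ) :
    ∀ v, ENNReal.ofReal x ≤ jl ξ p {η | hb r n η v = true} := by
  have hp1 : 0 ≤ 1 - (p : ℝ) := by linarith [p.2.2]
  induction n with
  | zero =>
    intro v
    have h1 : {η : List ℕ → ℕ × Bool | hb r 0 η v = true} = {η | (η v).2 = false} := by
      ext η; simp [hb]
    rw [h1, jl_healthy]
    refine hx.trans ?_
    calc ENNReal.ofReal (1 - p) * ∑' k, ξ k * ENNReal.ofReal (1 - tl (1 - x) k r)
        ≤ ENNReal.ofReal (1 - p) * ∑' k, ξ k := by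
          gcongr with k
          refine mul_le_of_le_one_right' ?_
          rw [ENNReal.ofReal_le_one]
          linarith [tl_nonneg (y := 1 - x) (by linarith) (by linarith) k r]
      _ = ENNReal.ofReal (1 - p) := by rw [ξ.tsum_coe, mul_one]
  | succ n ih =>
    intro v
    let A : ℕ → Set (List ℕ → ℕ × Bool) := fun k => {η | η v = (k, false)}
    let B : ℕ → Set (List ℕ → ℕ × Bool) := fun k =>
      {η | r ≤ cnt (fun i => hb r n η (i :: v)) k}
    have hA : ∀ k, MeasurableSet (A k) := fun k =>
      (measurable_pi_apply v) (measurableSet_singleton _)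
    have hB : ∀ k, MeasurableSet (B k) := fun k =>
      (cnt_meas (fun i => hb_meas r n (i :: v)) k) measurableSet_Ici
    have hsub : (⋃ k, A k ∩ (B k)ᶜ) ⊆ {η | hb r (n + 1) η v = true} := by
      intro η hη
      simp only [mem_iUnion] at hη
      obtain ⟨k, h1, h2⟩ := hη
      simp only [A, B, mem_ofPred_eq, mem_compl_iff, not_le] at h1 h2
      rw [mem_ofPred_eq, hb_succ_true, h1]
      exact ⟨rfl, h2⟩
    have hdisj : Pairwise (Function.onFun Disjoint fun k => A k ∩ (B k)ᶜ) := by
      intro i j hij
      rw [Function.onFun, Set.disjoint_left]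
      rintro η ⟨h1, _⟩ ⟨h2, _⟩
      simp only [A, mem_ofPred_eq] at h1 h2
      rw [h1] at h2
      exact hij (congrArg Prod.fst h2)
    have hAd : ∀ k, DepOn {v} (A k) := by
      intro k a b hab h
      simp only [A, mem_ofPred_eq] at h ⊢
      rw [← hab v rfl]; exact h
    have hBd : ∀ k, DepOn (subs v k) (B k)ᶜ := by
      intro k a b hab h hb'
      exact h (cnt_dep r n v k r b a (fun i hi => (hab i hi).symm) hb')
    have hBp : ∀ k, ENNReal.ofReal (1 - tl (1 - x) k r) ≤ jl ξ p (B k)ᶜ := by
      intro k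
      have h1 : (jl ξ p).real (B k) ≤ tl (1 - x) k r := by
        refine cnt_tail (jl ξ p) (g := fun i η => hb r n η (i :: v))
          (fun i => hb_meas r n (i :: v)) (by linarith) (by linarith) ?_ ?_ k r
        · intro i
          have h2 := ih (i :: v)
          have h3 : {η | hb r n η (i :: v) = false} = {η | hb r n η (i :: v) = true}ᶜ := by
            ext η; simp
          have hm3 : MeasurableSet {η | hb r n η (i :: v) = true} :=
            hb_meas r n (i :: v) (measurableSet_singleton true)
          rw [h3, probReal_compl_eq_one_sub hm3]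
          have h4 : x ≤ (jl ξ p).real {η | hb r n η (i :: v) = true} := by
            rw [measureReal_def]
            rw [ENNReal.ofReal_le_iff_le_toReal (measure_ne_top _ _)] at h2
            exact h2
          linarith
        · intro k s
          rw [measureReal_def, measureReal_def, measureReal_def, ← ENNReal.toReal_mul]
          congr 1
          refine jl_indep ξ p (subs_disj v k) ?_ ?_ (cnt_dep r n v k s) ?_
          · exact (cnt_meas (fun i => hb_meas r n (i :: v)) k) measurableSet_Ici
          · exact hb_meas r n (k :: v) (measurableSet_singleton false)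
          · intro a b hab h
            simp only [mem_ofPred_eq] at h ⊢
            rw [← hb_dep r n (k :: v) hab]; exact h
      have h2 : (jl ξ p).real (B k)ᶜ = 1 - (jl ξ p).real (B k) := probReal_compl_eq_one_sub (hB k)
      rw [ENNReal.ofReal_le_iff_le_toReal (measure_ne_top _ _), ← measureReal_def, h2]
      linarith
    calc ENNReal.ofReal x
        ≤ ENNReal.ofReal (1 - p) * ∑' k, ξ k * ENNReal.ofReal (1 - tl (1 - x) k r) := hx
      _ = ∑' k, (ξ k * ENNReal.ofReal (1 - p)) * ENNReal.ofReal (1 - tl (1 - x) k r) := by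
          rw [← ENNReal.tsum_mul_left]
          exact tsum_congr fun k => by ring
      _ ≤ ∑' k, jl ξ p (A k ∩ (B k)ᶜ) := by
          refine ENNReal.tsum_le_tsum fun k => ?_
          rw [jl_indep ξ p (subs_disj' v k) (hA k) (hB k).compl (hAd k) (hBd k), jl_single]
          gcongr
          exact hBp k
      _ = jl ξ p (⋃ k, A k ∩ (B k)ᶜ) :=
          (measure_iUnion hdisj fun k => (hA k).inter (hB k).compl).symm
      _ ≤ _ := measure_mono hsub

lemma Hinf_meas (r : ℕ) (v : List ℕ) : MeasurableSet {η | Hinf r η v} := by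
  have : {η | Hinf r η v} = ⋂ n, {η | hb r n η v = true} := by
    ext η; simp [Hinf]
  rw [this]
  exact MeasurableSet.iInter fun n => hb_meas r n v (measurableSet_singleton true)

lemma Hinf_dep (r : ℕ) (v : List ℕ) : DepOn (sub v) {η | Hinf r η v} := by
  intro a b hab h n
  rw [← hb_dep r n v hab]; exact h n

theorem prob_Hinf (hx0 : 0 ≤ x) (hx1 : x ≤ 1)
    (hx : ENNReal.ofReal x ≤
      ENNReal.ofReal (1 - p) * ∑' k, ξ k * ENNReal.ofReal (1 - tl (1 - x) k r)) (v : List ℕ) :
    ENNReal.ofReal x ≤ jl ξ p {η | Hinf r η v} := by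
  have h1 : {η | Hinf r η v} = ⋂ n, {η | hb r n η v = true} := by
    ext η; simp [Hinf]
  rw [h1]
  refine ge_of_tendsto' (tendsto_measure_iInter_atTop
    (fun n => (hb_meas r n v (measurableSet_singleton true)).nullMeasurableSet) ?_
    ⟨0, measure_ne_top _ _⟩) fun n => prob_hb hx0 hx1 hx n v
  intro m n hmn η h
  exact hb_anti r η v hmn h

lemma Good_meas (r k₀ : ℕ) (v : List ℕ) : MeasurableSet {η | Good r k₀ η v} := by
  have : {η | Good r k₀ η v} = {η | η v = (k₀, false)} ∩
      ⋂ i, ⋂ (_ : i < k₀), {η | Hinf r η (i :: v)} := by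
    ext η; simp [Good]
  rw [this]
  exact ((measurable_pi_apply v) (measurableSet_singleton _)).inter
    (MeasurableSet.iInter fun i => MeasurableSet.iInter fun _ => Hinf_meas r _)

lemma Good_dep (r k₀ : ℕ) (v : List ℕ) : DepOn (sub v) {η | Good r k₀ η v} := by
  intro a b hab h
  refine ⟨?_, fun i hi => ?_⟩
  · rw [← hab v (List.suffix_refl v)]; exact h.1
  · exact Hinf_dep r (i :: v) a b (fun w hw => hab w (sub_child i v hw)) (h.2 i hi)

theorem prob_Good (hx0 : 0 ≤ x) (hx1 : x ≤ 1)
    (hx : ENNReal.ofReal x ≤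
      ENNReal.ofReal (1 - p) * ∑' k, ξ k * ENNReal.ofReal (1 - tl (1 - x) k r)) (k₀ : ℕ)
    (v : List ℕ) :
    ξ k₀ * ENNReal.ofReal (1 - p) * ENNReal.ofReal x ^ k₀ ≤ jl ξ p {η | Good r k₀ η v} := by
  have hk : ∀ k, MeasurableSet {η | ∀ i < k, Hinf r η (i :: v)} ∧
      DepOn (subs v k) {η | ∀ i < k, Hinf r η (i :: v)} ∧
      ENNReal.ofReal x ^ k ≤ jl ξ p {η | ∀ i < k, Hinf r η (i :: v)} := by
    intro k
    refine ⟨?_, ?_, ?_⟩
    · have : {η | ∀ i < k, Hinf r η (i :: v)} = ⋂ i, ⋂ (_ : i < k), {η | Hinf r η (i :: v)} := by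
        ext η; simp
      rw [this]
      exact MeasurableSet.iInter fun i => MeasurableSet.iInter fun _ => Hinf_meas r _
    · intro a b hab h i hi
      exact Hinf_dep r (i :: v) a b (fun w hw => hab w ⟨i, hi, hw⟩) (h i hi)
    · induction k with
      | zero => simp
      | succ k ih =>
        have hset : {η | ∀ i < k + 1, Hinf r η (i :: v)} =
            {η | ∀ i < k, Hinf r η (i :: v)} ∩ {η | Hinf r η (k :: v)} := by
          ext η
          simp only [mem_ofPred_eq, mem_inter_iff]
          constructor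
          · intro h; exact ⟨fun i hi => h i (by omega), h k (by omega)⟩
          · rintro ⟨h1, h2⟩ i hi
            rcases Nat.lt_succ_iff_lt_or_eq.1 hi with h | rfl
            · exact h1 i h
            · exact h2
        have hm : MeasurableSet {η | ∀ i < k, Hinf r η (i :: v)} := by
          have : {η | ∀ i < k, Hinf r η (i :: v)} =
              ⋂ i, ⋂ (_ : i < k), {η | Hinf r η (i :: v)} := by
            ext η; simp
          rw [this]
          exact MeasurableSet.iInter fun i => MeasurableSet.iInter fun _ => Hinf_meas r _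
        rw [hset, jl_indep ξ p (subs_disj v k) hm (Hinf_meas r _) ?_ (Hinf_dep r _), pow_succ]
        · exact mul_le_mul' ih (prob_Hinf hx0 hx1 hx _)
        · intro a b hab h i hi
          exact Hinf_dep r (i :: v) a b (fun w hw => hab w ⟨i, hi, hw⟩) (h i hi)
  have hset : {η | Good r k₀ η v} = {η | η v = (k₀, false)} ∩
      {η | ∀ i < k₀, Hinf r η (i :: v)} := by
    ext η; simp [Good]
  obtain ⟨h1, h2, h3⟩ := hk k₀
  have hm4 : MeasurableSet {η : List ℕ → ℕ × Bool | η v = (k₀, false)} :=
    (measurable_pi_apply v) (measurableSet_singleton _)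
  rw [hset, jl_indep ξ p (subs_disj' v k₀) hm4 h1 ?_ h2, jl_single]
  · gcongr
  · intro a b hab h
    simp only [mem_ofPred_eq] at h ⊢
    rw [← hab v rfl]; exact h

end est

end Q291.GW
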