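import Pool.Agent.Q291.GW.Annealed

/-!
On an infinite tree a good vertex exists almost surely.
-/

namespace Q291.GW

open MeasureTheory ProbabilityTheory Set Measure
open scoped ENNReal symmDiff

/-- The offspring numbers of a configuration. -/
def off (η : List ℕ → ℕ × Bool) : List ℕ → ℕ := fun v => (η v).1

/-- The tree has all its levels nonempty but no good vertex. -/
def Bad (r k₀ : ℕ) : Set (List ℕ → ℕ × Bool) :=
  {η | (∀ n, ∃ v : List ℕ, v.length = n ∧ InTree (off η) v) ∧
    ∀ v, InTree (off η) v → ¬ Good r k₀ η v}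

lemma inTree_meas (v : List ℕ) : MeasurableSet {η | InTree (off η) v} := by
  induction v with
  | nil => simp [InTree]
  | cons i v ih =>
    have : {η | InTree (off η) (i :: v)} = {η | InTree (off η) v} ∩ {η | i < (η v).1} := by
      ext η; simp [InTree, off]
    rw [this]
    exact ih.inter ((measurable_fst.comp (measurable_pi_apply v)) measurableSet_Ioi)

lemma inTree_dep (v : List ℕ) : DepOn {w | w.length < v.length} {η | InTree (off η) v} := by
  induction v with
  | nil => intro a b _ _; simp [InTree]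
  | cons i v ih =>
    intro a b hab h
    refine ⟨ih a b (fun w hw => hab w ?_) h.1, ?_⟩
    · simp only [mem_ofPred_eq, List.length_cons] at hw ⊢
      omega
    · have h1 : i < (a v).1 := h.2
      have h2 : a v = b v := hab v (by simp)
      rw [h2] at h1; exact h1

/-- `v` is the first vertex of level `n` (in the order of codes). -/
def First (n : ℕ) (v : List ℕ) : Set (List ℕ → ℕ × Bool) :=
  {η | v.length = n ∧ InTree (off η) v ∧
    ∀ u : List ℕ, u.length = n → InTree (off η) u → Encodable.encode v ≤ Encodable.encode u}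

lemma first_meas (n : ℕ) (v : List ℕ) : MeasurableSet (First n v) := by
  by_cases hv : v.length = n
  · have : First n v = {η | InTree (off η) v} ∩
        ⋂ u : List ℕ, {η | u.length = n → InTree (off η) u →
          Encodable.encode v ≤ Encodable.encode u} := by
      ext η; simp [First, hv]
    rw [this]
    refine (inTree_meas v).inter (MeasurableSet.iInter fun u => ?_)
    by_cases hu : u.length = n
    · by_cases he : Encodable.encode v ≤ Encodable.encode u
      · simp [he]
      · have : {η | u.length = n → InTree (off η) u →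
          Encodable.encode v ≤ Encodable.encode u} = {η | InTree (off η) u}ᶜ := by
          ext η; simp [hu, he]
        rw [this]
        exact (inTree_meas u).compl
    · simp [hu]
  · have : First n v = ∅ := by
      ext η; simp [First, hv]
    rw [this]
    exact MeasurableSet.empty

lemma first_dep (n : ℕ) (v : List ℕ) : DepOn {w | w.length < n} (First n v) := by
  rintro a b hab ⟨h1, h2, h3⟩
  refine ⟨h1, ?_, fun u hu hb => h3 u hu ?_⟩
  · exact inTree_dep v a b (fun w hw => hab w (by rw [← h1]; exact hw)) h2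
  · exact inTree_dep u b a (fun w hw => (hab w (by rw [← hu]; exact hw)).symm) hb

lemma first_disj (n : ℕ) : Pairwise (Function.onFun Disjoint (First n)) := by
  intro u v huv
  rw [Function.onFun, Set.disjoint_left]
  rintro η ⟨h1, h2, h3⟩ ⟨g1, g2, g3⟩
  exact huv (Encodable.encode_injective (le_antisymm (h3 v g1 g2) (g3 u h1 h2)))

lemma exists_first {n : ℕ} {η : List ℕ → ℕ × Bool}
    (h : ∃ v : List ℕ, v.length = n ∧ InTree (off η) v) : ∃ v, η ∈ First n v := by
  classical
  let Q : ℕ → Prop := fun m => ∃ v : List ℕ, Encodable.encode v = m ∧ v.length = n ∧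
    InTree (off η) v
  have hQ : ∃ m, Q m := by
    obtain ⟨v, h1, h2⟩ := h
    exact ⟨_, v, rfl, h1, h2⟩
  obtain ⟨v, h0, h1, h2⟩ := Nat.find_spec hQ
  refine ⟨v, h1, h2, fun u g1 g2 => ?_⟩
  rw [h0]
  exact Nat.find_min' hQ ⟨u, rfl, g1, g2⟩

lemma bad_meas (r k₀ : ℕ) : MeasurableSet (Bad r k₀) := by
  have : Bad r k₀ = (⋂ n : ℕ, ⋃ v : List ℕ, {η | v.length = n ∧ InTree (off η) v}) ∩
      ⋂ v : List ℕ, ({η | InTree (off η) v}ᶜ ∪ {η | Good r k₀ η v}ᶜ) := by
    ext η
    simp only [Bad, mem_ofPred_eq, mem_inter_iff, mem_iInter, mem_iUnion, mem_union,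
      mem_compl_iff]
    refine and_congr Iff.rfl (forall_congr' fun v => ?_)
    tauto
  rw [this]
  refine (MeasurableSet.iInter fun n => MeasurableSet.iUnion fun v => ?_).inter
    (MeasurableSet.iInter fun v => (inTree_meas v).compl.union (Good_meas r k₀ v).compl)
  by_cases hv : v.length = n
  · simp only [hv, true_and]; exact inTree_meas v
  · simp [hv]

section
variable {ξ : PMF ℕ} {p : unitInterval} {r k₀ : ℕ} {ρ : ℝ≥0∞}

lemma bad_inter (hρ : ∀ v, ρ ≤ jl ξ p {η | Good r k₀ η v}) {n : ℕ}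
    {A : Set (List ℕ → ℕ × Bool)} (hA : MeasurableSet A) (dA : DepOn {w | w.length < n} A) :
    jl ξ p (Bad r k₀ ∩ A) ≤ (1 - ρ) * jl ξ p A := by
  have h1 : Bad r k₀ ∩ A ⊆ ⋃ v : List ℕ, ((A ∩ First n v) ∩ {η | Good r k₀ η v}ᶜ) := by
    rintro η ⟨⟨h1, h2⟩, h3⟩
    obtain ⟨v, hv⟩ := exists_first (h1 n)
    exact mem_iUnion.2 ⟨v, ⟨h3, hv⟩, h2 v hv.2.1⟩
  have h2 : ∀ v : List ℕ, jl ξ p ((A ∩ First n v) ∩ {η | Good r k₀ η v}ᶜ) ≤
      (1 - ρ) * jl ξ p (A ∩ First n v) := by
    intro v
    by_cases hv : v.length = n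
    · have hST : Disjoint {w : List ℕ | w.length < n} (sub v) := by
        rw [Set.disjoint_left]
        intro w hw h
        have h' : v <:+ w := h
        have := h'.length_le
        simp only [mem_ofPred_eq] at hw
        omega
      rw [jl_indep ξ p hST (hA.inter (first_meas n v)) (Good_meas r k₀ v).compl ?_ ?_, mul_comm]
      · gcongr
        rw [prob_compl_eq_one_sub (Good_meas r k₀ v)]
        exact tsub_le_tsub_left (hρ v) 1
      · rintro a b hab ⟨h3, h4⟩
        exact ⟨dA a b hab h3, first_dep n v a b hab h4⟩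
      · intro a b hab h3 h4
        exact h3 (Good_dep r k₀ v b a (fun w hw => (hab w hw).symm) h4)
    · have : First n v = ∅ := by
        ext η; simp [First, hv]
      simp [this]
  calc jl ξ p (Bad r k₀ ∩ A) ≤ jl ξ p (⋃ v : List ℕ, ((A ∩ First n v) ∩ {η | Good r k₀ η v}ᶜ)) :=
        measure_mono h1
    _ ≤ ∑' v : List ℕ, jl ξ p ((A ∩ First n v) ∩ {η | Good r k₀ η v}ᶜ) := measure_iUnion_le _
    _ ≤ ∑' v : List ℕ, (1 - ρ) * jl ξ p (A ∩ First n v) := ENNReal.tsum_le_tsum h2
    _ = (1 - ρ) * ∑' v : List ℕ, jl ξ p (A ∩ First n v) := ENNReal.tsum_mul_left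
    _ = (1 - ρ) * jl ξ p (⋃ v : List ℕ, A ∩ First n v) := by
        rw [measure_iUnion (fun u v huv => ?_) fun v => hA.inter (first_meas n v)]
        exact (first_disj n huv).mono inter_subset_right inter_subset_right
    _ ≤ (1 - ρ) * jl ξ p A := by
        gcongr
        exact iUnion_subset fun v => inter_subset_left

/-- Events depending on finitely many levels. -/
def cyl : Set (Set (List ℕ → ℕ × Bool)) :=
  {A | MeasurableSet A ∧ ∃ n : ℕ, DepOn {w | w.length < n} A}

lemma lv_mono {n k : ℕ} (h : n ≤ k) : {w : List ℕ | w.length < n} ⊆ {w | w.length < k} := by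
  intro w hw
  simp only [mem_ofPred_eq] at hw ⊢
  omega

lemma cyl_ring : IsSetRing cyl where
  empty_mem := ⟨MeasurableSet.empty, 0, fun _ _ _ h => h⟩
  union_mem := by
    rintro A B ⟨hA, n, dA⟩ ⟨hB, m, dB⟩
    refine ⟨hA.union hB, max n m, ?_⟩
    rintro a b hab (h | h)
    · exact Or.inl ((dA.mono (lv_mono (le_max_left n m))) a b hab h)
    · exact Or.inr ((dB.mono (lv_mono (le_max_right n m))) a b hab h)
  sdiff_mem := by
    rintro A B ⟨hA, n, dA⟩ ⟨hB, m, dB⟩
    refine ⟨hA.diff hB, max n m, ?_⟩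
    rintro a b hab ⟨h, h'⟩
    exact ⟨(dA.mono (lv_mono (le_max_left n m))) a b hab h, fun h'' =>
      h' ((dB.mono (lv_mono (le_max_right n m))) b a (fun w hw => (hab w hw).symm) h'')⟩

lemma cyl_gen : (MeasurableSpace.pi : MeasurableSpace (List ℕ → ℕ × Bool)) =
    MeasurableSpace.generateFrom cyl := by
  apply le_antisymm
  · refine iSup_le fun v => ?_
    rintro _ ⟨t, ht, rfl⟩
    apply MeasurableSpace.measurableSet_generateFrom
    refine ⟨(measurable_pi_apply v) ht, v.length + 1, ?_⟩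
    intro a b hab h
    have h1 : a v = b v := hab v (by simp)
    simp only [mem_preimage] at h ⊢
    rw [← h1]; exact h
  · apply MeasurableSpace.generateFrom_le
    rintro t ⟨ht, _⟩
    exact ht

theorem bad_null (hρ0 : ρ ≠ 0) (hρ : ∀ v, ρ ≤ jl ξ p {η | Good r k₀ η v}) :
    jl ξ p (Bad r k₀) = 0 := by
  have hρ1 : ρ ≤ 1 := (hρ []).trans prob_le_one
  have hρt : ρ ≠ ∞ := ne_top_of_le_ne_top ENNReal.one_ne_top hρ1
  have key : ∀ ε : ℝ≥0∞, 0 < ε → ρ * jl ξ p (Bad r k₀) ≤ 2 * ε := by
    intro ε hε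
    obtain ⟨A, ⟨hA, n, dA⟩, hAε⟩ := exists_measure_symmDiff_lt_of_generateFrom_isSetRing
      (μ := jl ξ p) cyl_ring ⟨{univ}, by simp, by
        simp only [singleton_subset_iff]
        exact ⟨MeasurableSet.univ, 0, fun _ _ _ h => h⟩, by simp⟩ cyl_gen (bad_meas r k₀) hε
    have h1 : jl ξ p (Bad r k₀) ≤ jl ξ p (Bad r k₀ ∩ A) + ε := by
      calc jl ξ p (Bad r k₀) ≤ jl ξ p ((Bad r k₀ ∩ A) ∪ (A ∆ Bad r k₀)) := by
            apply measure_mono
            intro η hη
            by_cases h : η ∈ A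
            · exact Or.inl ⟨hη, h⟩
            · exact Or.inr (Or.inr ⟨hη, h⟩)
        _ ≤ jl ξ p (Bad r k₀ ∩ A) + jl ξ p (A ∆ Bad r k₀) := measure_union_le _ _
        _ ≤ _ := by gcongr
    have h2 : jl ξ p A ≤ jl ξ p (Bad r k₀) + ε := by
      calc jl ξ p A ≤ jl ξ p (Bad r k₀ ∪ (A ∆ Bad r k₀)) := by
            apply measure_mono
            intro η hη
            by_cases h : η ∈ Bad r k₀
            · exact Or.inl h
            · exact Or.inr (Or.inl ⟨hη, h⟩)
        _ ≤ jl ξ p (Bad r k₀) + jl ξ p (A ∆ Bad r k₀) := measure_union_le _ _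
        _ ≤ _ := by gcongr
    set P := jl ξ p (Bad r k₀) with hP
    have hPt : P ≠ ∞ := measure_ne_top _ _
    have h3 : P ≤ (1 - ρ) * (P + ε) + ε := by
      calc P ≤ jl ξ p (Bad r k₀ ∩ A) + ε := h1
        _ ≤ (1 - ρ) * jl ξ p A + ε := by gcongr; exact bad_inter hρ hA dA
        _ ≤ (1 - ρ) * (P + ε) + ε := by gcongr
    have h4 : ρ * P + (1 - ρ) * P = P := by
      rw [← add_mul, add_tsub_cancel_of_le hρ1, one_mul]
    have h5 : (1 - ρ) * ε ≤ ε := mul_le_of_le_one_left' tsub_le_self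
    have h6 : ρ * P + (1 - ρ) * P ≤ 2 * ε + (1 - ρ) * P := by
      rw [h4]
      calc P ≤ (1 - ρ) * (P + ε) + ε := h3
        _ = (1 - ρ) * P + (1 - ρ) * ε + ε := by rw [mul_add]
        _ ≤ (1 - ρ) * P + ε + ε := by gcongr
        _ = 2 * ε + (1 - ρ) * P := by ring
    have h7 : (1 - ρ) * P ≠ ∞ := ENNReal.mul_ne_top (ne_top_of_le_ne_top ENNReal.one_ne_top
      tsub_le_self) hPt
    exact (ENNReal.add_le_add_iff_right h7).1 h6
  have h8 : ρ * jl ξ p (Bad r k₀) = 0 := by
    by_contra hne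
    have hpos : 0 < ρ * jl ξ p (Bad r k₀) := pos_iff_ne_zero.2 hne
    have hfin : ρ * jl ξ p (Bad r k₀) ≠ ∞ := ENNReal.mul_ne_top hρt (measure_ne_top _ _)
    have h9 := key (ρ * jl ξ p (Bad r k₀) / 4) (ENNReal.div_pos hne (by simp))
    have h10 : 2 * (ρ * jl ξ p (Bad r k₀) / 4) < ρ * jl ξ p (Bad r k₀) := by
      set y := ρ * jl ξ p (Bad r k₀)
      have : 2 * (y / 4) = y / 2 := by
        rw [← mul_div_assoc, mul_comm, show (4 : ℝ≥0∞) = 2 * 2 by norm_num]
        rw [ENNReal.mul_div_mul_right _ _ (by simp) (by simp)]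
      rw [this]
      exact ENNReal.half_lt_self hne hfin
    exact absurd h9 (not_le.2 h10)
  rcases mul_eq_zero.1 h8 with h | h
  · exact absurd h hρ0
  · exact h

end

end Q291.GW
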