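import Pool.Agent.Q291.GW.Quenched

/-!
The lower bound `p_c ≥ exp (-b/(r-1))` for Galton-Watson trees of mean `b`.
-/

namespace Q291.GW

open MeasureTheory ProbabilityTheory Set Measure
open scoped ENNReal

/-- The two parts of the offspring expectation sum to one. -/
lemma split_one (ξ : PMF ℕ) {y : ℝ} (h0 : 0 ≤ y) (h1 : y ≤ 1) (r : ℕ) :
    (∑' k, ξ k * ENNReal.ofReal (1 - tl y k r)) + ∑' k, ξ k * ENNReal.ofReal (tl y k r) = 1 := by
  rw [← ENNReal.tsum_add, ← ξ.tsum_coe]
  refine tsum_congr fun k => ?_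
  rw [← mul_add, ← ENNReal.ofReal_add]
  · simp
  · linarith [tl_le_one h0 h1 k r]
  · exact tl_nonneg h0 h1 k r

lemma tail_ge (ξ : PMF ℕ) {p y : ℝ} (hp0 : 0 ≤ p) (hp1 : p < 1) (hpy : p ≤ y) (h1 : y ≤ 1) (r : ℕ)
    (h : ENNReal.ofReal (1 - p) * ∑' k, ξ k * ENNReal.ofReal (1 - tl y k r) ≤
      ENNReal.ofReal (1 - y)) :
    ENNReal.ofReal ((y - p) / (1 - p)) ≤ ∑' k, ξ k * ENNReal.ofReal (tl y k r) := by
  have h1p : 0 < 1 - p := by linarith
  have hs := split_one ξ (hp0.trans hpy) h1 r
  set S := ∑' k, ξ k * ENNReal.ofReal (1 - tl y k r)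
  set T := ∑' k, ξ k * ENNReal.ofReal (tl y k r)
  have hS : S ≤ ENNReal.ofReal ((1 - y) / (1 - p)) := by
    rw [ENNReal.ofReal_div_of_pos h1p, ENNReal.le_div_iff_mul_le (Or.inl (by simpa using hp1))
      (Or.inl ENNReal.ofReal_ne_top), mul_comm]
    exact h
  have hSt : S ≠ ∞ := ne_top_of_le_ne_top ENNReal.ofReal_ne_top hS
  have hT : T = 1 - S := by
    rw [← hs, ENNReal.add_sub_cancel_left hSt]
  rw [hT]
  have : (y - p) / (1 - p) = 1 - (1 - y) / (1 - p) := by field_simp; ring
  rw [this, ENNReal.ofReal_sub _ (by apply div_nonneg <;> linarith), ENNReal.ofReal_one]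
  exact tsub_le_tsub_left hS 1

theorem mean_bound {ξ : PMF ℕ} {r : ℕ} (hr : 2 ≤ r) {b : ℝ}
    (hb : ∑' k, ξ k * (k : ℝ≥0∞) = ENNReal.ofReal b) (h0 : ξ 0 = 0) :
    ∀ᵐ ω ∂gw ξ, Real.exp (-b / (r - 1)) ≤ pc (tree ω) r := by
  obtain ⟨s, rfl⟩ : ∃ s, r = s + 1 := ⟨r - 1, by omega⟩
  have hs : 1 ≤ s := by omega
  have hs' : (0 : ℝ) < s := by exact_mod_cast hs
  have hcast : (((s + 1 : ℕ) : ℝ) - 1) = s := by push_cast; ring
  rw [hcast]
  have hb1 : 1 ≤ b := by
    have : (1 : ℝ≥0∞) ≤ ENNReal.ofReal b := by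
      rw [← hb, ← ξ.tsum_coe]
      refine ENNReal.tsum_le_tsum fun k => ?_
      rcases Nat.eq_zero_or_pos k with rfl | hk
      · simp [h0]
      · calc ξ k = ξ k * 1 := (mul_one _).symm
          _ ≤ ξ k * k := by gcongr; exact_mod_cast hk
    rwa [ENNReal.one_le_ofReal] at this
  have hinf : ∀ᵐ ω ∂gw ξ, {v | InTree ω v}.Infinite := by
    have h1 : ∀ᵐ ω ∂gw ξ, ∀ v : List ℕ, ω v ≠ 0 := by
      rw [ae_all_iff]
      intro v
      have h2 : (gw ξ).map (fun ω => ω v) = ξ.toMeasure :=
        infinitePi_map_eval (fun _ : List ℕ => ξ.toMeasure) v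
      have h3 : gw ξ {ω | ω v = 0} = 0 := by
        have : {ω : List ℕ → ℕ | ω v = 0} = (fun ω => ω v) ⁻¹' {0} := by ext; simp
        rw [this, ← Measure.map_apply (measurable_pi_apply v) (measurableSet_singleton _), h2,
          PMF.toMeasure_apply_singleton _ _ (measurableSet_singleton _), h0]
      rw [ae_iff]
      simpa using h3
    filter_upwards [h1] with ω hω
    have h4 : ∀ n, InTree ω (List.replicate n 0) := by
      intro n
      induction n with
      | zero => trivial
      | succ n ih => exact ⟨ih, Nat.pos_of_ne_zero (hω _)⟩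
    refine infinite_of_injective_forall_mem (f := fun n => List.replicate n 0) ?_ h4
    intro m n h
    simpa using congrArg List.length h
  have hp₀ : Real.exp (-b / s) ≤ 1 := by
    rw [Real.exp_le_one_iff]
    apply div_nonpos_of_nonpos_of_nonneg <;> linarith
  have hc := crit (ξ := ξ) (r := s + 1) hr hp₀ ?_
  · filter_upwards [hc, hinf] with ω h1 h2 using h1 h2
  intro p hp
  have hp1 : (p : ℝ) < 1 := hp.trans_le hp₀
  have h1p : 0 < 1 - (p : ℝ) := by linarith
  by_cases hsmall : ∃ k < s + 1, ξ k ≠ 0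
  · obtain ⟨k, hk, hξ⟩ := hsmall
    have hkt : ξ k ≠ ∞ := ξ.apply_ne_top k
    refine ⟨(1 - p) * (ξ k).toReal, mul_pos h1p (ENNReal.toReal_pos hξ hkt), ?_, ?_⟩
    · have h2 : (ξ k).toReal ≤ 1 := by
        have := ENNReal.toReal_mono ENNReal.one_ne_top (ξ.coe_le_one k)
        simpa using this
      have := p.2.1
      have h3 : 0 ≤ (ξ k).toReal := ENNReal.toReal_nonneg
      nlinarith
    · rw [ENNReal.ofReal_mul h1p.le, ENNReal.ofReal_toReal hkt]
      gcongr
      refine le_trans ?_ (ENNReal.le_tsum k)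
      rw [tl_eq_zero _ hk]
      simp
  · push Not at hsmall
    rcases eq_or_lt_of_le p.2.1 with hp0 | hp0
    · refine ⟨1, one_pos, le_rfl, ?_⟩
      rw [← hp0]
      simp only [sub_self, sub_zero, ENNReal.ofReal_one, one_mul]
      rw [← ξ.tsum_coe]
      refine ENNReal.tsum_le_tsum fun k => ?_
      rw [tl_zero]
      simp
    · by_contra hcon
      push Not at hcon
      have hT : ∀ y ∈ Ioo (p : ℝ) 1, ENNReal.ofReal ((y - p) / (1 - p) / y ^ 2) ≤
          ∑' k, ξ k * ENNReal.ofReal (tl y k (s + 1) / y ^ 2) := by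
        intro y hy
        have hy0 : 0 < y := hp0.trans hy.1
        have h2 := (hcon (1 - y) (by linarith [hy.2]) (by linarith)).le
        rw [sub_sub_cancel] at h2
        have h3 := tail_ge ξ p.2.1 hp1 hy.1.le hy.2.le (s + 1) h2
        have hy2 : (0 : ℝ) < y ^ 2 := by positivity
        rw [ENNReal.ofReal_div_of_pos hy2]
        have h4 : ∑' k, ξ k * ENNReal.ofReal (tl y k (s + 1) / y ^ 2) =
            (∑' k, ξ k * ENNReal.ofReal (tl y k (s + 1))) / ENNReal.ofReal (y ^ 2) := by
          simp_rw [div_eq_mul_inv]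
          rw [← ENNReal.tsum_mul_right]
          refine tsum_congr fun k => ?_
          rw [← div_eq_mul_inv, ENNReal.ofReal_div_of_pos hy2, div_eq_mul_inv, mul_assoc]
        rw [h4]
        gcongr
      have hint : ENNReal.ofReal (Real.log (1 / p) / (1 - p) - 1) ≤
          ∑' k, ξ k * ENNReal.ofReal (k / s - 1) := by
        calc ENNReal.ofReal (Real.log (1 / p) / (1 - p) - 1)
            ≤ ∫⁻ y in Ioo (p : ℝ) 1, ENNReal.ofReal ((y - p) / (1 - p) / y ^ 2) :=
              lintegral_low hp0 hp1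
          _ ≤ ∫⁻ y in Ioo (p : ℝ) 1, ∑' k, ξ k * ENNReal.ofReal (tl y k (s + 1) / y ^ 2) :=
              setLIntegral_mono' measurableSet_Ioo hT
          _ = ∑' k, ∫⁻ y in Ioo (p : ℝ) 1, ξ k * ENNReal.ofReal (tl y k (s + 1) / y ^ 2) := by
              refine lintegral_tsum fun k => ?_
              refine Measurable.aemeasurable ?_
              have := (tl_continuous k (s + 1)).measurable
              fun_prop
          _ = ∑' k, ξ k * ∫⁻ y in Ioo (p : ℝ) 1, ENNReal.ofReal (tl y k (s + 1) / y ^ 2) := by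
              refine tsum_congr fun k => ?_
              exact lintegral_const_mul' _ _ (ξ.apply_ne_top k)
          _ ≤ ∑' k, ξ k * ENNReal.ofReal (k / s - 1) := by
              refine ENNReal.tsum_le_tsum fun k => ?_
              by_cases hk : s + 1 ≤ k
              · gcongr
                exact lintegral_tl_le hs (by omega) hp0 hp1
              · simp [hsmall k (by omega)]
      have hsum : (∑' k, ξ k * ENNReal.ofReal (k / s - 1)) + 1 = ENNReal.ofReal (b / s) := by
        conv_lhs => rw [← ξ.tsum_coe]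
        rw [← ENNReal.tsum_add, ENNReal.ofReal_div_of_pos hs', ← hb, div_eq_mul_inv,
          ← ENNReal.tsum_mul_right]
        refine tsum_congr fun k => ?_
        by_cases hk : s + 1 ≤ k
        · have hk' : (s : ℝ) ≤ k := by exact_mod_cast (by omega : s ≤ k)
          have h5 : (0 : ℝ) ≤ k / s - 1 := by
            rw [sub_nonneg, le_div_iff₀ hs']; linarith
          calc ξ k * ENNReal.ofReal (k / s - 1) + ξ k
              = ξ k * (ENNReal.ofReal (k / s - 1) + ENNReal.ofReal 1) := by
                rw [ENNReal.ofReal_one]; ring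
            _ = ξ k * ENNReal.ofReal (k / s) := by
                rw [← ENNReal.ofReal_add h5 zero_le_one]; congr 2; ring
            _ = ξ k * k * (ENNReal.ofReal s)⁻¹ := by
                rw [ENNReal.ofReal_div_of_pos hs', ENNReal.ofReal_natCast, div_eq_mul_inv,
                  mul_assoc]
        · simp [hsmall k (by omega)]
      have hfin : ENNReal.ofReal (Real.log (1 / p) / (1 - p)) ≤ ENNReal.ofReal (b / s) := by
        calc ENNReal.ofReal (Real.log (1 / p) / (1 - p))
            = ENNReal.ofReal ((Real.log (1 / p) / (1 - p) - 1) + 1) := by congr 1; ring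
          _ ≤ ENNReal.ofReal (Real.log (1 / p) / (1 - p) - 1) + ENNReal.ofReal 1 :=
              ENNReal.ofReal_add_le
          _ ≤ (∑' k, ξ k * ENNReal.ofReal (k / s - 1)) + 1 := by
              rw [ENNReal.ofReal_one]; gcongr
          _ = _ := hsum
      rw [ENNReal.ofReal_le_ofReal_iff (by positivity)] at hfin
      have hlog : 0 ≤ Real.log (1 / p) := Real.log_nonneg (by
        rw [le_div_iff₀ hp0]; linarith)
      have h6 : Real.log (1 / p) ≤ Real.log (1 / p) / (1 - p) := by
        rw [le_div_iff₀ h1p]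
        nlinarith
      have h7 : Real.log (1 / p) ≤ b / s := h6.trans hfin
      have h8 : Real.exp (-b / s) ≤ p := by
        rw [← Real.le_log_iff_exp_le hp0]
        rw [one_div, Real.log_inv] at h7
        have : -b / s = -(b / s) := by ring
        rw [this]; linarith
      linarith

end Q291.GW
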