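import Pool.Agent.Q291.GW.Tail
import Pool.Agent.Q291.GW.Indep

/-!
Bootstrap percolation, its critical probability, and Galton-Watson trees.
-/

namespace Q291.GW

open MeasureTheory ProbabilityTheory Set Measure

/-- One time step of `r`-neighbour bootstrap percolation: infected vertices stay infected and a
healthy vertex with at least `r` infected neighbours becomes infected. -/
def step {V : Type*} (G : SimpleGraph V) (r : ℕ) (A : Set V) : Set V :=
  A ∪ {v | (r : ℕ∞) ≤ (G.neighborSet v ∩ A).encard}

/-- Every vertex is eventually infected when `A` is the initially infected set. -/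
def Percolates {V : Type*} (G : SimpleGraph V) (r : ℕ) (A : Set V) : Prop :=
  ∀ v, ∃ n : ℕ, v ∈ (step G r)^[n] A

/-- The law of the initial configuration: each vertex is infected (`true`) with probability `p`
independently of the others. -/
noncomputable def site (V : Type*) (p : unitInterval) : Measure (V → Bool) :=
  infinitePi fun _ : V => bernoulliMeasure true false p

/-- The critical probability of `r`-neighbour bootstrap percolation on `G`. -/
noncomputable def pc {V : Type*} (G : SimpleGraph V) (r : ℕ) : ℝ :=
  sInf {x : ℝ | ∃ p : unitInterval, (p : ℝ) = x ∧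
    0 < site V p {c | Percolates G r {v | c v = true}}}

/-- Vertices of the tree with offspring numbers `ω`: the root is `[]` and the children of `v` are
`i :: v` for `i < ω v`. -/
def InTree (ω : List ℕ → ℕ) : List ℕ → Prop
  | [] => True
  | i :: v => InTree ω v ∧ i < ω v

/-- The tree with offspring numbers `ω`, as a graph. -/
def tree (ω : List ℕ → ℕ) : SimpleGraph {v : List ℕ // InTree ω v} where
  Adj u v := (∃ i, v.1 = i :: u.1) ∨ (∃ i, u.1 = i :: v.1)
  symm := ⟨fun _ _ h => h.symm⟩
  loopless := ⟨fun u h => by
    rcases h with ⟨i, h⟩ | ⟨i, h⟩ <;>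
    · have := congrArg List.length h
      simp at this⟩

/-- The law of the offspring numbers: independent with law `ξ`. -/
noncomputable def gw (ξ : PMF ℕ) : Measure (List ℕ → ℕ) := infinitePi fun _ => ξ.toMeasure

/-! ### healthy vertices -/

/-- The number of `i < k` with `b i = false`. -/
def cnt (b : ℕ → Bool) : ℕ → ℕ
  | 0 => 0
  | k + 1 => cnt b k + if b k then 0 else 1

lemma cnt_anti {b b' : ℕ → Bool} (h : ∀ i, b i = true → b' i = true) (k : ℕ) :
    cnt b' k ≤ cnt b k := by
  induction k with
  | zero => simp [cnt]
  | succ k ih =>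
    have := h k
    simp only [cnt]
    cases h1 : b k <;> cases h2 : b' k <;> simp_all <;> omega

lemma cnt_congr {b b' : ℕ → Bool} {k : ℕ} (h : ∀ i < k, b i = b' i) : cnt b k = cnt b' k := by
  induction k with
  | zero => rfl
  | succ k ih =>
    simp only [cnt]
    rw [ih fun i hi => h i (by omega), h k (by omega)]

lemma cnt_card (b : ℕ → Bool) (k : ℕ) :
    cnt b k = ((Finset.range k).filter fun i => b i = false).card := by
  induction k with
  | zero => simp [cnt]
  | succ k ih =>
    rw [cnt, ih, Finset.range_add_one, Finset.filter_insert]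
    cases h : b k <;> simp

/-- `hb r n η v`: the vertex `v` is still healthy at time `n` when its parent is kept healthy;
the coordinate `η w` is the pair (number of children, initially infected). -/
def hb (r : ℕ) : ℕ → (List ℕ → ℕ × Bool) → List ℕ → Bool
  | 0, η, v => !(η v).2
  | n + 1, η, v => !(η v).2 && decide (cnt (fun i => hb r n η (i :: v)) (η v).1 < r)

lemma hb_succ_true {r n : ℕ} {η : List ℕ → ℕ × Bool} {v : List ℕ} :
    hb r (n + 1) η v = true ↔
      (η v).2 = false ∧ cnt (fun i => hb r n η (i :: v)) (η v).1 < r := by
  simp [hb]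

lemma hb_anti_succ (r n : ℕ) (η : List ℕ → ℕ × Bool) (v : List ℕ) :
    hb r (n + 1) η v = true → hb r n η v = true := by
  induction n generalizing v with
  | zero => intro h; simpa [hb] using (hb_succ_true.1 h).1
  | succ n ih =>
    intro h
    rw [hb_succ_true] at h ⊢
    exact ⟨h.1, (cnt_anti (fun i => ih (i :: v)) _).trans_lt h.2⟩

lemma hb_anti (r : ℕ) (η : List ℕ → ℕ × Bool) (v : List ℕ) {m n : ℕ} (hmn : m ≤ n) :
    hb r n η v = true → hb r m η v = true := by
  induction n, hmn using Nat.le_induction with
  | base => exact id
  | succ n _ ih => exact fun h => ih (hb_anti_succ r n η v h)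

/-- Coordinates in the subtree of `v`. -/
def sub (v : List ℕ) : Set (List ℕ) := {w | v <:+ w}

lemma sub_child (i : ℕ) (v : List ℕ) : sub (i :: v) ⊆ sub v := fun _ h =>
  (List.suffix_cons i v).trans h

lemma hb_dep (r n : ℕ) {a b : List ℕ → ℕ × Bool} (v : List ℕ) (h : ∀ w ∈ sub v, a w = b w) :
    hb r n a v = hb r n b v := by
  induction n generalizing v with
  | zero => simp [hb, h v (List.suffix_refl v)]
  | succ n ih =>
    have h1 : a v = b v := h v (List.suffix_refl v)
    simp only [hb, h1]
    rw [cnt_congr fun i _ => ih (i :: v) fun w hw => h w (sub_child i v hw)]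

lemma cnt_meas {Ω : Type*} [MeasurableSpace Ω] {g : ℕ → Ω → Bool} (hg : ∀ i, Measurable (g i))
    (k : ℕ) : Measurable fun η => cnt (fun i => g i η) k := by
  induction k with
  | zero => simp only [cnt]; exact measurable_const
  | succ k ih =>
    simp only [cnt]
    refine ih.add ?_
    refine Measurable.ite ?_ measurable_const measurable_const
    exact hg k (measurableSet_singleton true)

lemma hb_meas (r n : ℕ) (v : List ℕ) : Measurable fun η => hb r n η v := by
  induction n generalizing v with
  | zero =>
    simp only [hb]
    exact (measurable_of_finite (fun b : Bool => !b)).comp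
      (measurable_snd.comp (measurable_pi_apply v))
  | succ n ih =>
    have h1 : Measurable fun x : ℕ × (List ℕ → ℕ × Bool) => cnt (fun i => hb r n x.2 (i :: v)) x.1 :=
      measurable_from_prod_countable_right fun k => cnt_meas (fun i => ih (i :: v)) k
    have h2 : Measurable fun η : List ℕ → ℕ × Bool => ((η v).1, η) :=
      (measurable_fst.comp (measurable_pi_apply v)).prodMk measurable_id
    have h3 := h1.comp h2
    have h4 : Measurable fun η : List ℕ → ℕ × Bool => (!(η v).2) :=
      (measurable_of_finite (fun b : Bool => !b)).comp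
        (measurable_snd.comp (measurable_pi_apply v))
    have h5 : Measurable fun η : List ℕ → ℕ × Bool =>
        decide (cnt (fun i => hb r n η (i :: v)) (η v).1 < r) :=
      (measurable_of_countable (fun m : ℕ => decide (m < r))).comp h3
    simp only [hb]
    exact (measurable_of_finite (fun b : Bool × Bool => b.1 && b.2)).comp (h4.prodMk h5)

/-- Healthy for ever when the parent is kept healthy. -/
def Hinf (r : ℕ) (η : List ℕ → ℕ × Bool) (v : List ℕ) : Prop := ∀ n, hb r n η v = true

/-- A local certificate that `v` is never infected. -/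
def Good (r k₀ : ℕ) (η : List ℕ → ℕ × Bool) (v : List ℕ) : Prop :=
  η v = (k₀, false) ∧ ∀ i < k₀, Hinf r η (i :: v)

/-! ### the deterministic part -/

section det
variable {r : ℕ} {ω : List ℕ → ℕ} {c : {v : List ℕ // InTree ω v} → Bool}
  {η : List ℕ → ℕ × Bool}

lemma step_mono_iter {V : Type*} (G : SimpleGraph V) (r n : ℕ) (A : Set V) :
    (step G r)^[n] A ⊆ (step G r)^[n + 1] A := by
  rw [Function.iterate_succ_apply']
  exact subset_union_left

/-- infected set at time `n` -/
abbrev Inf (r : ℕ) (ω : List ℕ → ℕ) (c : {v : List ℕ // InTree ω v} → Bool) (n : ℕ) :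
    Set {v : List ℕ // InTree ω v} := (step (tree ω) r)^[n] {v | c v = true}

lemma key (h1 : ∀ w, InTree ω w → (η w).1 = ω w) (h2 : ∀ w : {v : List ℕ // InTree ω v},
    (η w.1).2 = c w) (n : ℕ) :
    ∀ u : {v : List ℕ // InTree ω v}, hb r n η u.1 = true →
      (∀ w : {v : List ℕ // InTree ω v}, ∀ i, u.1 = i :: w.1 → w ∉ Inf r ω c n) →
      u ∉ Inf r ω c n := by
  induction n with
  | zero =>
    intro u hu _
    simp only [Inf, Function.iterate_zero, id, mem_setOf_eq]
    have := h2 u
    simp only [hb, Bool.not_eq_true'] at hu
    rw [← this, hu]; simp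
  | succ n ih =>
    intro u hu hp
    have hu' := hb_succ_true.1 hu
    have hp' : ∀ w : {v : List ℕ // InTree ω v}, ∀ i, u.1 = i :: w.1 → w ∉ Inf r ω c n :=
      fun w i h hw => hp w i h (step_mono_iter _ _ _ _ hw)
    have hun : u ∉ Inf r ω c n := ih u (hb_anti_succ r n η u.1 hu) hp'
    have : Inf r ω c (n + 1) = step (tree ω) r (Inf r ω c n) := by
      simp only [Inf, Function.iterate_succ_apply']
    rw [this]
    rintro (h | h)
    · exact hun h
    · simp only [mem_setOf_eq] at h
      have hsub : Subtype.val '' ((tree ω).neighborSet u ∩ Inf r ω c n) ⊆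
          (fun i => i :: u.1) '' (((Finset.range (η u.1).1).filter
            fun i => hb r n η (i :: u.1) = false : Finset ℕ) : Set ℕ) := by
        rintro _ ⟨w, ⟨hw1, hw2⟩, rfl⟩
        rcases hw1 with ⟨i, hi⟩ | ⟨i, hi⟩
        · refine ⟨i, ?_, hi.symm⟩
          have hwT := w.2
          rw [hi] at hwT
          simp only [Finset.coe_filter, Finset.mem_range, mem_setOf_eq]
          refine ⟨by rw [h1 u.1 u.2]; exact hwT.2, ?_⟩
          by_contra hb1
          have hb2 : hb r n η w.1 = true := by rw [hi]; simpa using hb1
          refine ih w hb2 (fun w' j hj => ?_) hw2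
          have : w' = u := by
            apply Subtype.ext
            rw [hi] at hj
            exact (List.cons.inj hj).2.symm
          rw [this]; exact hun
        · exact absurd hw2 (hp' w i hi)
      have h3 := encard_le_encard hsub
      rw [Subtype.val_injective.encard_image] at h3
      have h4 : ((fun i => i :: u.1) '' (((Finset.range (η u.1).1).filter
            fun i => hb r n η (i :: u.1) = false : Finset ℕ) : Set ℕ)).encard ≤
            (cnt (fun i => hb r n η (i :: u.1)) (η u.1).1 : ℕ∞) := by
        refine (encard_image_le _ _).trans ?_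
        rw [encard_coe_eq_coe_finsetCard, cnt_card]
      have h5 : (r : ℕ∞) ≤ (cnt (fun i => hb r n η (i :: u.1)) (η u.1).1 : ℕ∞) :=
        h.trans (h3.trans h4)
      have h6 : r ≤ cnt (fun i => hb r n η (i :: u.1)) (η u.1).1 := by exact_mod_cast h5
      omega

lemma not_perc (hr : 2 ≤ r) (h1 : ∀ w, InTree ω w → (η w).1 = ω w)
    (h2 : ∀ w : {v : List ℕ // InTree ω v}, (η w.1).2 = c w) {k₀ : ℕ}
    {v : List ℕ} (hv : InTree ω v) (hg : Good r k₀ η v) :
    ¬ Percolates (tree ω) r {v | c v = true} := by
  intro hperc
  have : ∀ n, (⟨v, hv⟩ : {v : List ℕ // InTree ω v}) ∉ Inf r ω c n := by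
    intro n
    induction n with
    | zero =>
      simp only [Inf, Function.iterate_zero, id, mem_setOf_eq]
      rw [← h2 ⟨v, hv⟩]
      simp [hg.1]
    | succ n ih =>
      have : Inf r ω c (n + 1) = step (tree ω) r (Inf r ω c n) := by
        simp only [Inf, Function.iterate_succ_apply']
      rw [this]
      rintro (h | h)
      · exact ih h
      · simp only [mem_setOf_eq] at h
        have hsub : Subtype.val '' ((tree ω).neighborSet ⟨v, hv⟩ ∩ Inf r ω c n) ⊆ {v.tail} := by
          rintro _ ⟨w, ⟨hw1, hw2⟩, rfl⟩
          rcases hw1 with ⟨i, hi⟩ | ⟨i, hi⟩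
          · exfalso
            have hwT := w.2
            rw [hi] at hwT
            have hik : i < k₀ := by
              have := hwT.2
              simp only at this
              rw [← h1 v hv, hg.1] at this
              exact this
            refine key h1 h2 n w (by rw [hi]; exact hg.2 i hik n) (fun w' j hj => ?_) hw2
            have : w' = ⟨v, hv⟩ := by
              apply Subtype.ext
              rw [hi] at hj
              exact (List.cons.inj hj).2.symm
            rw [this]; exact ih
          · simp only at hi
            simp [hi]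
        have h3 := encard_le_encard hsub
        rw [Subtype.val_injective.encard_image, encard_singleton] at h3
        have h4 : (r : ℕ∞) ≤ 1 := h.trans h3
        have h5 : r ≤ 1 := by exact_mod_cast h4
        omega
  obtain ⟨n, hn⟩ := hperc ⟨v, hv⟩
  exact this n hn

end det

end Q291.GW
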