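import Pool.Agent.Q291.GW.Mean

/-!
The moment lower bound for Galton-Watson trees.
-/

namespace Q291.GW

open MeasureTheory ProbabilityTheory Set Measure
open scoped ENNReal

/-- `P(Bin(k,y) ≥ r) ≤ (k y)^t` for `0 ≤ t ≤ r`. -/
lemma tl_le_rpow {y : ℝ} (h0 : 0 ≤ y) (h1 : y ≤ 1) (k r : ℕ) {t : ℝ} (ht0 : 0 ≤ t)
    (htr : t ≤ r) : tl y k r ≤ (k * y) ^ t := by
  have hky : (0 : ℝ) ≤ k * y := by positivity
  rcases le_total 1 (k * y : ℝ) with h | h
  · exact (tl_le_one h0 h1 k r).trans (Real.one_le_rpow h ht0)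
  · refine (tl_le_pow h0 h1 k r).trans ?_
    rw [← Real.rpow_natCast]
    rcases eq_or_lt_of_le hky with h2 | h2
    · rw [← h2]
      rcases eq_or_lt_of_le ht0 with h3 | h3
      · rw [← h3, Real.rpow_zero]
        exact Real.rpow_le_one le_rfl zero_le_one (by positivity)
      · have hr : (r : ℝ) ≠ 0 := by linarith
        rw [Real.zero_rpow hr, Real.zero_rpow h3.ne']
    · exact Real.rpow_le_rpow_of_exponent_ge h2 h htr

/-! ### the subcritical tree is finite -/

/-- The event that `v` is a vertex of the tree. -/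
lemma inTree_meas' (v : List ℕ) : MeasurableSet {ω : List ℕ → ℕ | InTree ω v} := by
  induction v with
  | nil => simp [InTree]
  | cons i v ih =>
    have : {ω : List ℕ → ℕ | InTree ω (i :: v)} = {ω | InTree ω v} ∩ {ω | i < ω v} := by
      ext η; simp [InTree]
    rw [this]
    exact ih.inter ((measurable_pi_apply v) measurableSet_Ioi)

lemma inTree_dep' (v : List ℕ) :
    DepOn {w : List ℕ | w.length < v.length} {ω : List ℕ → ℕ | InTree ω v} := by
  induction v with
  | nil => intro a b _ _; simp [InTree]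
  | cons i v ih =>
    intro a b hab h
    refine ⟨ih a b (fun w hw => hab w ?_) h.1, ?_⟩
    · simp only [mem_ofPred_eq, List.length_cons] at hw ⊢
      omega
    · have h1 : i < a v := h.2
      have h2 : a v = b v := hab v (by simp)
      rw [h2] at h1; exact h1

/-- The mean number of children. -/
noncomputable def mean (ξ : PMF ℕ) : ℝ≥0∞ := ∑' k, ξ k * (k : ℝ≥0∞)

lemma tail_sum (ξ : PMF ℕ) (v : List ℕ) : ∑' i : ℕ, gw ξ {ω | i < ω v} = mean ξ := by
  have h2 : (gw ξ).map (fun ω => ω v) = ξ.toMeasure :=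
    infinitePi_map_eval (fun _ : List ℕ => ξ.toMeasure) v
  have h1 : ∀ i : ℕ, gw ξ {ω | i < ω v} = ∑' k, if i < k then ξ k else 0 := by
    intro i
    have : {ω : List ℕ → ℕ | i < ω v} = (fun ω => ω v) ⁻¹' (Ioi i) := by ext; simp
    rw [this, ← Measure.map_apply (measurable_pi_apply v) measurableSet_Ioi, h2,
      PMF.toMeasure_apply _ measurableSet_Ioi]
    refine tsum_congr fun k => ?_
    simp [indicator]
  simp_rw [h1]
  rw [ENNReal.tsum_comm]
  unfold mean
  refine tsum_congr fun k => ?_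
  have h3 : ∀ i, (if i < k then ξ k else 0) = if i ∈ Finset.range k then ξ k else 0 := by
    intro i; simp
  simp_rw [h3]
  rw [tsum_eq_sum (s := Finset.range k) (fun i hi => by simp [hi])]
  rw [Finset.sum_congr rfl (g := fun _ => ξ k) (fun i hi => by simp [hi])]
  simp [mul_comm]

/-- The expected size of the levels. -/
noncomputable def lvl (ξ : PMF ℕ) (n : ℕ) : ℝ≥0∞ :=
  ∑' v : {v : List ℕ // v.length = n}, gw ξ {ω | InTree ω v.1}

/-- Vertices of level `n + 1`. -/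
def consEquiv (n : ℕ) :
    ℕ × {v : List ℕ // v.length = n} ≃ {v : List ℕ // v.length = n + 1} where
  toFun x := ⟨x.1 :: x.2.1, by simp [x.2.2]⟩
  invFun v := (v.1.headD 0, ⟨v.1.tail, by simp [v.2]⟩)
  left_inv x := by simp
  right_inv v := by
    obtain ⟨v, hv⟩ := v
    cases v with
    | nil => simp at hv
    | cons i v => simp

lemma lvl_succ (ξ : PMF ℕ) (n : ℕ) : lvl ξ (n + 1) = lvl ξ n * mean ξ := by
  unfold lvl
  rw [← (consEquiv n).tsum_eq (fun v : {v : List ℕ // v.length = n + 1} =>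
    gw ξ {ω | InTree ω v.1}), ENNReal.tsum_prod', ENNReal.tsum_comm,
    ← ENNReal.tsum_mul_right]
  refine tsum_congr fun v => ?_
  rw [← tail_sum ξ v.1, ← ENNReal.tsum_mul_left]
  refine tsum_congr fun i => ?_
  have h1 : {ω : List ℕ → ℕ | InTree ω ((consEquiv n) (i, v)).1} =
      {ω | InTree ω v.1} ∩ {ω | i < ω v.1} := by
    ext ω; simp [InTree, consEquiv]
  rw [h1]
  unfold gw
  refine indep_dep _ (S := {w : List ℕ | w.length < v.1.length}) (T := {v.1}) ?_
    (inTree_meas' v.1) ((measurable_pi_apply v.1) measurableSet_Ioi) (inTree_dep' v.1) ?_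
  · rw [Set.disjoint_left]
    intro w h2 h3
    rw [mem_singleton_iff] at h3
    rw [h3] at h2
    simp at h2
  · intro a b hab h
    simp only [mem_ofPred_eq] at h ⊢
    rw [← hab v.1 rfl]; exact h

lemma lvl_eq (ξ : PMF ℕ) (n : ℕ) : lvl ξ n = mean ξ ^ n := by
  induction n with
  | zero =>
    unfold lvl
    rw [tsum_eq_single (⟨[], rfl⟩ : {v : List ℕ // v.length = 0})]
    · have : {ω : List ℕ → ℕ | InTree ω []} = univ := by ext; simp [InTree]
      simp only [this, measure_univ, pow_zero]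
    · intro v hv
      exfalso
      apply hv
      apply Subtype.ext
      exact List.length_eq_zero_iff.1 v.2
  | succ n ih => rw [lvl_succ, ih, pow_succ]

theorem finite_of_mean_lt {ξ : PMF ℕ} (h : mean ξ < 1) :
    ∀ᵐ ω ∂gw ξ, ¬ {v | InTree ω v}.Infinite := by
  have h1 : gw ξ {ω | {v | InTree ω v}.Infinite} = 0 := by
    have h2 : ∀ n, gw ξ {ω | {v | InTree ω v}.Infinite} ≤ mean ξ ^ n := by
      intro n
      rw [← lvl_eq]
      unfold lvl
      refine (measure_mono ?_).trans (measure_iUnion_le (μ := gw ξ)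
        (fun v : {v : List ℕ // v.length = n} => {ω | InTree ω v.1}))
      intro ω hω
      obtain ⟨v, h3, h4⟩ := levels hω n
      exact mem_iUnion.2 ⟨⟨v, h3⟩, h4⟩
    have h3 := ENNReal.tendsto_pow_atTop_nhds_zero_of_lt_one h
    exact le_antisymm (ge_of_tendsto' h3 h2) zero_le
  rw [ae_iff]
  simpa using h1

theorem moment_bound {r : ℕ} (hr : 2 ≤ r) {α : ℝ} (hα : 0 < α) (hαr : α ≤ r - 1) (ξ : PMF ℕ) :
    ∀ᵐ ω ∂gw ξ, {v | InTree ω v}.Infinite →
      ENNReal.ofReal (2 ^ (-(1 + α) / α)) * (∑' k, ξ k * (k : ℝ≥0∞) ^ (1 + α)) ^ (-1 / α) ≤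
        ENNReal.ofReal (pc (tree ω) r) := by
  set M : ℝ≥0∞ := ∑' k, ξ k * (k : ℝ≥0∞) ^ (1 + α) with hM
  have hneg : -1 / α < 0 := div_neg_of_neg_of_pos (by norm_num) hα
  have hmean : mean ξ ≤ M := by
    unfold mean
    refine ENNReal.tsum_le_tsum fun k => ?_
    gcongr
    rcases Nat.eq_zero_or_pos k with rfl | hk
    · simp
    · have hk1 : (1 : ℝ≥0∞) ≤ k := by exact_mod_cast hk
      calc (k : ℝ≥0∞) = (k : ℝ≥0∞) ^ (1 : ℝ) := (ENNReal.rpow_one _).symm
        _ ≤ _ := ENNReal.rpow_le_rpow_of_exponent_le hk1 (by linarith)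
  rcases eq_or_ne M ∞ with hMt | hMt
  · rw [hMt]
    refine ae_of_all _ fun ω _ => ?_
    rw [ENNReal.top_rpow_of_neg hneg, mul_zero]
    exact zero_le
  rcases lt_or_ge M 1 with hM1 | hM1
  · filter_upwards [finite_of_mean_lt (hmean.trans_lt hM1)] with ω hω h
    exact absurd h hω
  -- the main case
  set m : ℝ := M.toReal with hm
  have hMm : M = ENNReal.ofReal m := (ENNReal.ofReal_toReal hMt).symm
  have hm1 : 1 ≤ m := by
    rw [hMm, ENNReal.one_le_ofReal] at hM1
    exact hM1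
  have hm0 : 0 < m := by linarith
  set p₀ : ℝ := 2 ^ (-(1 + α) / α) * m ^ (-1 / α) with hp₀d
  have hc2 : (2 : ℝ) ^ (-(1 + α) / α) ≤ 1 / 2 := by
    have h1 : (1 / 2 : ℝ) = 2 ^ (-1 : ℝ) := by rw [Real.rpow_neg_one]; norm_num
    rw [h1]
    apply Real.rpow_le_rpow_of_exponent_le (by norm_num)
    rw [div_le_iff₀ hα]; linarith
  have hmle : m ^ (-1 / α) ≤ 1 := Real.rpow_le_one_of_one_le_of_nonpos hm1 hneg.le
  have hm' : 0 < m ^ (-1 / α) := Real.rpow_pos_of_pos hm0 _
  have hc0 : (0 : ℝ) < 2 ^ (-(1 + α) / α) := Real.rpow_pos_of_pos (by norm_num) _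
  have hp₀h : p₀ ≤ 1 / 2 := by
    rw [hp₀d]; nlinarith
  have hp₀p : 0 < p₀ := mul_pos hc0 hm'
  have hkey : 2 ^ (1 + α) * p₀ ^ α * m = 1 := by
    rw [hp₀d, Real.mul_rpow hc0.le hm'.le, ← Real.rpow_mul (by norm_num : (0 : ℝ) ≤ 2),
      ← Real.rpow_mul hm0.le, div_mul_cancel₀ _ hα.ne', div_mul_cancel₀ _ hα.ne',
      Real.rpow_neg_one, Real.rpow_neg (by norm_num : (0 : ℝ) ≤ 2)]
    have : (0 : ℝ) < 2 ^ (1 + α) := Real.rpow_pos_of_pos (by norm_num) _
    field_simp
  have hc := crit (ξ := ξ) (r := r) hr (p₀ := p₀) (by linarith) ?_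
  · filter_upwards [hc] with ω hω hinf
    rw [hMm, ENNReal.ofReal_rpow_of_pos hm0, ← ENNReal.ofReal_mul hc0.le]
    exact ENNReal.ofReal_le_ofReal (hω hinf)
  intro p hp
  have hpn : (0 : ℝ) ≤ p := p.2.1
  have hy0 : (0 : ℝ) ≤ 2 * p := by linarith
  have hy1 : 2 * (p : ℝ) ≤ 1 := by linarith
  refine ⟨1 - 2 * p, by linarith, by linarith, ?_⟩
  rw [sub_sub_cancel]
  set z : ℝ := (2 * p) ^ (1 + α) * m with hz
  have hz0 : 0 ≤ z := by positivity
  have hzp : z ≤ p := by
    rcases eq_or_lt_of_le hpn with h | h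
    · rw [hz, ← h, mul_zero, Real.zero_rpow (by linarith), zero_mul]
    · have h1 : (p : ℝ) ^ α ≤ p₀ ^ α := Real.rpow_le_rpow hpn hp.le hα.le
      have h2 : (0 : ℝ) < 2 ^ (1 + α) := Real.rpow_pos_of_pos (by norm_num) _
      have h3 : 2 ^ (1 + α) * (p : ℝ) ^ α * m ≤ 1 :=
        calc 2 ^ (1 + α) * (p : ℝ) ^ α * m ≤ 2 ^ (1 + α) * p₀ ^ α * m := by gcongr
          _ = 1 := hkey
      calc z = p * (2 ^ (1 + α) * (p : ℝ) ^ α * m) := by
            rw [hz, Real.mul_rpow (by norm_num) hpn, Real.rpow_add h, Real.rpow_one]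
            ring
        _ ≤ p * 1 := by gcongr
        _ = p := mul_one _
  have hs := split_one ξ hy0 hy1 r
  have hT : ∑' k, ξ k * ENNReal.ofReal (tl (2 * p) k r) ≤ ENNReal.ofReal z := by
    have h1 : ENNReal.ofReal z = ∑' k, ξ k * ENNReal.ofReal ((k * (2 * p)) ^ (1 + α)) := by
      rw [hz, ENNReal.ofReal_mul (by positivity), ← hMm, hM, ← ENNReal.tsum_mul_left]
      refine tsum_congr fun k => ?_
      have hk : ENNReal.ofReal ((k : ℝ) ^ (1 + α)) = (k : ℝ≥0∞) ^ (1 + α) := by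
        rw [← ENNReal.ofReal_rpow_of_nonneg (by positivity) (by linarith), ENNReal.ofReal_natCast]
      rw [Real.mul_rpow (by positivity) hy0, ENNReal.ofReal_mul (by positivity), hk]
      ring
    rw [h1]
    refine ENNReal.tsum_le_tsum fun k => ?_
    gcongr
    exact tl_le_rpow hy0 hy1 k r (by linarith) (by linarith)
  have hTt : ∑' k, ξ k * ENNReal.ofReal (tl (2 * p) k r) ≠ ∞ :=
    ne_top_of_le_ne_top ENNReal.ofReal_ne_top hT
  have hS : ENNReal.ofReal (1 - z) ≤ ∑' k, ξ k * ENNReal.ofReal (1 - tl (2 * p) k r) := by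
    have h1 : ∑' k, ξ k * ENNReal.ofReal (1 - tl (2 * p) k r) =
        1 - ∑' k, ξ k * ENNReal.ofReal (tl (2 * p) k r) := by
      rw [← hs, ENNReal.add_sub_cancel_right hTt]
    rw [h1, ENNReal.ofReal_sub _ hz0, ENNReal.ofReal_one]
    exact tsub_le_tsub_left hT 1
  calc ENNReal.ofReal (1 - 2 * p) ≤ ENNReal.ofReal ((1 - p) * (1 - z)) := by
        apply ENNReal.ofReal_le_ofReal
        nlinarith
    _ = ENNReal.ofReal (1 - p) * ENNReal.ofReal (1 - z) := by
        rw [ENNReal.ofReal_mul (by linarith)]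
    _ ≤ _ := by gcongr

end Q291.GW
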