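import Pool.Agent.Q291.GW.Exist

/-!
From the annealed estimate to the critical probability of the random tree.
-/

namespace Q291.GW

open MeasureTheory ProbabilityTheory Set Measure
open scoped ENNReal

instance {V : Type*} (p : unitInterval) : IsProbabilityMeasure (site V p) := by
  unfold site; infer_instance

instance (ξ : PMF ℕ) : IsProbabilityMeasure (gw ξ) := by
  unfold gw; infer_instance

section meas
variable {V : Type*} [Countable V]

omit [Countable V] in
lemma coord_meas (v : V) : MeasurableSet {c : V → Bool | c v = true} := by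
  have : {c : V → Bool | c v = true} = (fun c => c v) ⁻¹' {true} := by ext c; simp
  rw [this]
  exact measurable_pi_apply v (measurableSet_singleton true)

lemma iter_meas (G : SimpleGraph V) (r n : ℕ) (v : V) :
    MeasurableSet {c : V → Bool | v ∈ (step G r)^[n] {u | c u = true}} := by
  induction n generalizing v with
  | zero =>
    simp only [Function.iterate_zero, id, mem_ofPred_eq]
    exact coord_meas v
  | succ n ih =>
    have : {c : V → Bool | v ∈ (step G r)^[n + 1] {u | c u = true}} =
        {c : V → Bool | v ∈ (step G r)^[n] {u | c u = true}} ∪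
        ⋃ F : Finset V, 
          {c : V → Bool | (F.card = r ∧ ∀ u ∈ F, u ∈ G.neighborSet v) ∧
          ∀ u ∈ F, u ∈ (step G r)^[n] {u | c u = true}} := by
      ext c
      simp only [Function.iterate_succ_apply', mem_ofPred_eq, mem_union, mem_iUnion, step]
      refine or_congr Iff.rfl ?_
      constructor
      · intro h
        obtain ⟨t, ht, htc⟩ := exists_subset_encard_eq h
        have hfin : t.Finite := finite_of_encard_eq_coe htc
        refine ⟨hfin.toFinset, ⟨?_, fun u hu => ?_⟩, fun u hu => ?_⟩
        · have : (hfin.toFinset.card : ℕ∞) = r := by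
            rw [← htc, hfin.encard_eq_coe_toFinset_card]
          exact_mod_cast this
        · exact (ht (hfin.mem_toFinset.1 hu)).1
        · exact (ht (hfin.mem_toFinset.1 hu)).2
      · rintro ⟨F, ⟨h1, h2⟩, h3⟩
        have : (F : Set V) ⊆ G.neighborSet v ∩ (step G r)^[n] {u | c u = true} :=
          fun u hu => ⟨h2 u hu, h3 u hu⟩
        have h4 := encard_le_encard this
        rw [encard_coe_eq_coe_finsetCard, h1] at h4
        exact h4
    rw [this]
    refine (ih v).union (MeasurableSet.iUnion fun F => ?_)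
    by_cases hF : F.card = r ∧ ∀ u ∈ F, u ∈ G.neighborSet v
    · have : {c : V → Bool | (F.card = r ∧ ∀ u ∈ F, u ∈ G.neighborSet v) ∧
          ∀ u ∈ F, u ∈ (step G r)^[n] {u | c u = true}} =
          ⋂ u ∈ F, {c : V → Bool | u ∈ (step G r)^[n] {u | c u = true}} := by
        ext c
        simp only [mem_ofPred_eq, mem_iInter]
        exact ⟨fun h => h.2, fun h => ⟨hF, h⟩⟩
      rw [this]
      exact F.measurableSet_biInter fun u _ => ih u
    · have : {c : V → Bool | (F.card = r ∧ ∀ u ∈ F, u ∈ G.neighborSet v) ∧
          ∀ u ∈ F, u ∈ (step G r)^[n] {u | c u = true}} = ∅ := by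
        ext c
        simp only [mem_ofPred_eq, mem_empty_iff_false, iff_false]
        exact fun h => hF h.1
      rw [this]
      exact MeasurableSet.empty

lemma perc_meas (G : SimpleGraph V) (r : ℕ) :
    MeasurableSet {c : V → Bool | Percolates G r {v | c v = true}} := by
  have : {c : V → Bool | Percolates G r {v | c v = true}} =
      ⋂ v, ⋃ n, {c : V → Bool | v ∈ (step G r)^[n] {u | c u = true}} := by
    ext c; simp [Percolates]
  rw [this]
  exact MeasurableSet.iInter fun v => MeasurableSet.iUnion fun n => iter_meas G r n v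

end meas

lemma step_mono {V : Type*} (G : SimpleGraph V) (r : ℕ) {A B : Set V} (h : A ⊆ B) :
    step G r A ⊆ step G r B := by
  rintro v (hv | hv)
  · exact Or.inl (h hv)
  · exact Or.inr (le_trans (α := ℕ∞) hv (encard_le_encard (inter_subset_inter_right _ h)))

lemma perc_mono {V : Type*} (G : SimpleGraph V) (r : ℕ) {A B : Set V} (h : A ⊆ B)
    (hA : Percolates G r A) : Percolates G r B := by
  intro v
  obtain ⟨n, hn⟩ := hA v
  refine ⟨n, ?_⟩
  have : ∀ n, (step G r)^[n] A ⊆ (step G r)^[n] B := by
    intro n
    induction n with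
    | zero => simpa using h
    | succ n ih =>
      rw [Function.iterate_succ_apply', Function.iterate_succ_apply']
      exact step_mono G r ih
  exact this n hn

/-- Coupling of all the parameters by uniform variables. -/
lemma site_eq_map (V : Type*) (p : unitInterval) :
    site V p = (infinitePi fun _ : V => (volume : Measure unitInterval)).map
      (fun U v => decide (U v ≤ p)) := by
  have hm : Measurable fun u : unitInterval => decide (u ≤ p) := by
    refine measurable_to_bool ?_
    have : (fun u : unitInterval => decide (u ≤ p)) ⁻¹' {true} = Iic p := by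
      ext u; simp
    rw [this]
    exact measurableSet_Iic
  have h1 := infinitePi_map_pi (μ := fun _ : V => (volume : Measure unitInterval))
    (f := fun _ u => decide (u ≤ p)) (fun _ => hm)
  rw [h1]
  unfold site
  congr 1
  funext _
  have h2 : (volume : Measure unitInterval) {u | u ≤ p} = ENNReal.ofReal p :=
    unitInterval.volume_Iic p
  have h3 : (volume : Measure unitInterval) {u | ¬ u ≤ p} = ENNReal.ofReal (1 - p) := by
    have : {u : unitInterval | ¬ u ≤ p} = Ioi p := by ext u; simp
    rw [this]; exact unitInterval.volume_Ioi p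
  refine Measure.ext_of_singleton fun b => ?_
  rw [Measure.map_apply hm (measurableSet_singleton b)]
  cases b with
  | true =>
    rw [bernoulliMeasure_apply_of_mem_of_notMem _ (measurableSet_singleton _) (by simp) (by simp)]
    have : (fun u : unitInterval => decide (u ≤ p)) ⁻¹' {true} = {u | u ≤ p} := by ext u; simp
    rw [this, h2, ENNReal.ofReal]
    congr 1
    ext
    simp
    exact p.2.1
  | false =>
    rw [bernoulliMeasure_apply_of_notMem_of_mem _ (measurableSet_singleton _) (by simp) (by simp)]
    have : (fun u : unitInterval => decide (u ≤ p)) ⁻¹' {false} = {u | ¬ u ≤ p} := by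
      ext u; simp
    rw [this, h3, ENNReal.ofReal]
    congr 1
    ext
    simp
    exact p.2.2

lemma site_mono {V : Type*} {E : Set (V → Bool)} (hE : MeasurableSet E)
    (hinc : ∀ c c' : V → Bool, (∀ v, c v = true → c' v = true) → c ∈ E → c' ∈ E)
    {p q : unitInterval} (h : p ≤ q) : site V p E ≤ site V q E := by
  have hm : ∀ p : unitInterval, Measurable fun (U : V → unitInterval) v => decide (U v ≤ p) := by
    intro p
    refine measurable_pi_lambda _ fun v => ?_
    refine measurable_to_bool ?_
    have : (fun U : V → unitInterval => decide (U v ≤ p)) ⁻¹' {true} =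
        (fun U => U v) ⁻¹' Iic p := by
      ext u; simp
    rw [this]
    exact (measurable_pi_apply v) measurableSet_Iic
  rw [site_eq_map, site_eq_map, Measure.map_apply (hm p) hE, Measure.map_apply (hm q) hE]
  refine measure_mono fun U hU => ?_
  refine hinc _ _ (fun v hv => ?_) hU
  simp only [decide_eq_true_eq] at hv ⊢
  exact hv.trans h

lemma perc_site_mono {V : Type*} [Countable V] (G : SimpleGraph V) (r : ℕ) {p q : unitInterval}
    (h : p ≤ q) : site V p {c | Percolates G r {v | c v = true}} ≤
      site V q {c | Percolates G r {v | c v = true}} :=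
  site_mono (perc_meas G r) (fun _ _ hcc hc => perc_mono G r (fun v hv => hcc v hv) hc) h

/-- Restricting the configuration to a set of vertices. -/
lemma site_restrict {V : Type*} (Q : V → Prop) (p : unitInterval) :
    (site V p).map (fun c (v : {v // Q v}) => c v.1) = site {v // Q v} p := by
  unfold site
  exact infinitePi_map_restrict' (fun _ : V => bernoulliMeasure true false p)
    (I := {v | Q v})

section quenched
variable {ξ : PMF ℕ} {p : unitInterval} {r : ℕ} {x : ℝ}

theorem quenched (hr : 2 ≤ r) (hx0 : 0 < x) (hx1 : x ≤ 1)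
    (hx : ENNReal.ofReal x ≤
      ENNReal.ofReal (1 - p) * ∑' k, ξ k * ENNReal.ofReal (1 - tl (1 - x) k r)) :
    ∀ᵐ ω ∂gw ξ, (∀ n, ∃ v : List ℕ, v.length = n ∧ InTree ω v) →
      site {v : List ℕ // InTree ω v} p {c | Percolates (tree ω) r {v | c v = true}} = 0 := by
  obtain ⟨k₀, hk₀⟩ : ∃ k, ξ k ≠ 0 := by
    by_contra h
    push Not at h
    have := ξ.tsum_coe
    simp [h] at this
  have h1p : ENNReal.ofReal (1 - p) ≠ 0 := by
    intro h
    rw [h, zero_mul] at hx
    have : ENNReal.ofReal x = 0 := le_antisymm hx zero_le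
    rw [ENNReal.ofReal_eq_zero] at this
    linarith
  set ρ := ξ k₀ * ENNReal.ofReal (1 - p) * ENNReal.ofReal x ^ k₀ with hρ
  have hρ0 : ρ ≠ 0 := by
    rw [hρ]
    refine mul_ne_zero (mul_ne_zero hk₀ h1p) (pow_ne_zero _ ?_)
    simpa using hx0
  have hnull : jl ξ p (Bad r k₀) = 0 := bad_null hρ0 (fun v => prob_Good hx0.le hx1 hx k₀ v)
  have hm : Measurable (fun (z : (List ℕ → ℕ) × (List ℕ → Bool)) i => (z.1 i, z.2 i)) := by
    fun_prop
  have hj : ((gw ξ).prod (site (List ℕ) p)).map (fun z i => (z.1 i, z.2 i)) = jl ξ p :=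
    joint (fun _ : List ℕ => ξ.toMeasure) (fun _ => bernoulliMeasure true false p)
  have h2 : ((gw ξ).prod (site (List ℕ) p))
      {z | (fun i => (z.1 i, z.2 i)) ∈ Bad r k₀} = 0 := by
    rw [← hj, Measure.map_apply hm (bad_meas r k₀)] at hnull
    exact hnull
  have h3 : ∀ᵐ z ∂((gw ξ).prod (site (List ℕ) p)), (fun i => (z.1 i, z.2 i)) ∉ Bad r k₀ := by
    rw [ae_iff]
    simpa using h2
  have h4 := Measure.ae_ae_of_ae_prod h3
  filter_upwards [h4] with ω hω hlev
  have hperc := perc_meas (tree ω) r
  rw [← site_restrict (InTree ω) p, Measure.map_apply (by fun_prop) hperc]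
  refine measure_mono_null ?_ (ae_iff.1 hω)
  intro c hc
  simp only [mem_ofPred_eq, not_not]
  refine ⟨hlev, fun v hv hg => ?_⟩
  exact not_perc (c := fun v => c v.1) (η := fun i => (ω i, c i)) hr (fun _ _ => rfl)
    (fun _ => rfl) hv hg hc

/-- An infinite tree has all its levels nonempty. -/
lemma levels {ω : List ℕ → ℕ} (h : {v | InTree ω v}.Infinite) (n : ℕ) :
    ∃ v : List ℕ, v.length = n ∧ InTree ω v := by
  have hfin : ∀ n, {v : List ℕ | v.length = n ∧ InTree ω v}.Finite := by
    intro n
    induction n with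
    | zero =>
      refine (finite_singleton []).subset ?_
      rintro v ⟨hv, _⟩
      simpa using hv
    | succ n ih =>
      have : {v : List ℕ | v.length = n + 1 ∧ InTree ω v} ⊆
          ⋃ v ∈ {v : List ℕ | v.length = n ∧ InTree ω v}, (fun i => i :: v) '' (Iio (ω v)) := by
        rintro v ⟨hv, hT⟩
        cases v with
        | nil => simp at hv
        | cons i v =>
          simp only [mem_iUnion]
          exact ⟨v, ⟨by simpa using hv, hT.1⟩, i, hT.2, rfl⟩
      exact (ih.biUnion fun v _ => (finite_Iio _).image _).subset this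
  by_contra hcon
  push Not at hcon
  have hge : ∀ m, n ≤ m → ∀ v : List ℕ, v.length = m → ¬ InTree ω v := by
    intro m hm
    induction m, hm using Nat.le_induction with
    | base => exact hcon
    | succ m _ ih =>
      intro v hv hT
      cases v with
      | nil => simp at hv
      | cons i v => exact ih v (by simpa using hv) hT.1
  apply h
  have : {v | InTree ω v} ⊆ ⋃ m ∈ Iio n, {v : List ℕ | v.length = m ∧ InTree ω v} := by
    intro v hv
    simp only [mem_iUnion]
    refine ⟨v.length, ?_, rfl, hv⟩
    by_contra hlt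
    exact hge v.length (by simpa using hlt) v rfl hv
  exact ((finite_Iio n).biUnion fun m _ => hfin m).subset this

theorem crit (hr : 2 ≤ r) {p₀ : ℝ} (hp₀ : p₀ ≤ 1)
    (H : ∀ p : unitInterval, (p : ℝ) < p₀ → ∃ x : ℝ, 0 < x ∧ x ≤ 1 ∧ ENNReal.ofReal x ≤
      ENNReal.ofReal (1 - p) * ∑' k, ξ k * ENNReal.ofReal (1 - tl (1 - x) k r)) :
    ∀ᵐ ω ∂gw ξ, {v | InTree ω v}.Infinite → p₀ ≤ pc (tree ω) r := by
  have hall : ∀ᵐ ω ∂gw ξ, ∀ q : ℚ, (Set.projIcc (0 : ℝ) 1 zero_le_one (q : ℝ) : ℝ) < p₀ →
      (∀ n, ∃ v : List ℕ, v.length = n ∧ InTree ω v) →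
      site {v : List ℕ // InTree ω v} (Set.projIcc (0 : ℝ) 1 zero_le_one (q : ℝ))
        {c | Percolates (tree ω) r {v | c v = true}} = 0 := by
    rw [ae_all_iff]
    intro q
    by_cases hq : (Set.projIcc (0 : ℝ) 1 zero_le_one (q : ℝ) : ℝ) < p₀
    · obtain ⟨x, hx0, hx1, hx⟩ := H _ hq
      filter_upwards [quenched (p := Set.projIcc (0 : ℝ) 1 zero_le_one (q : ℝ)) hr hx0 hx1 hx]
        with ω hω _ using hω
    · exact ae_of_all _ fun ω h => absurd h hq
  filter_upwards [hall] with ω hω hinf
  have hlev := levels hinf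
  refine le_csInf ?_ ?_
  · refine ⟨1, 1, by simp, ?_⟩
    have h1 : site {v : List ℕ // InTree ω v} 1 = dirac (fun _ => true) := by
      unfold site
      simp
    rw [h1, Measure.dirac_apply' _ (perc_meas _ _)]
    have : (fun _ => true) ∈ {c : {v : List ℕ // InTree ω v} → Bool |
        Percolates (tree ω) r {v | c v = true}} := fun v => ⟨0, by simp⟩
    simp [this]
  · rintro y ⟨p, rfl, hp⟩
    by_contra hlt
    push Not at hlt
    obtain ⟨q, hq1, hq2⟩ := exists_rat_btwn hlt
    have hq0 : (0 : ℝ) ≤ q := p.2.1.trans hq1.le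
    have hq3 : (q : ℝ) ≤ 1 := hq2.le.trans hp₀
    have hproj : Set.projIcc (0 : ℝ) 1 zero_le_one (q : ℝ) = ⟨q, hq0, hq3⟩ :=
      Set.projIcc_of_mem zero_le_one ⟨hq0, hq3⟩
    have h2 := hω q (by rw [hproj]; exact hq2) hlev
    have h3 := perc_site_mono (tree ω) r (p := p)
      (q := Set.projIcc (0 : ℝ) 1 zero_le_one (q : ℝ)) (by
        rw [hproj]
        exact Subtype.coe_le_coe.1 hq1.le)
    rw [h2] at h3
    exact absurd h3 (not_le.2 hp)

end quenched

end Q291.GW
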