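import Mathlib

/-!
Binomial tails `tl y k s = P(Bin(k,y) ≥ s)`, defined by their recursion, and the two analytic
facts used for bootstrap percolation on random trees.
-/

namespace Q291.GW

open MeasureTheory Set

/-- `tl y k s` is the probability that a binomial variable with `k` trials and success
probability `y` is at least `s`. -/
noncomputable def tl (y : ℝ) : ℕ → ℕ → ℝ
  | _, 0 => 1
  | 0, _ + 1 => 0
  | k + 1, s + 1 => (1 - y) * tl y k (s + 1) + y * tl y k s

@[simp] lemma tl_zero_right (y : ℝ) (k : ℕ) : tl y k 0 = 1 := by cases k <;> rfl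

@[simp] lemma tl_zero_left (y : ℝ) (s : ℕ) : tl y 0 (s + 1) = 0 := rfl

lemma tl_succ (y : ℝ) (k s : ℕ) :
    tl y (k + 1) (s + 1) = (1 - y) * tl y k (s + 1) + y * tl y k s := rfl

lemma tl_nonneg {y : ℝ} (h0 : 0 ≤ y) (h1 : y ≤ 1) (k s : ℕ) : 0 ≤ tl y k s := by
  induction k generalizing s with
  | zero => cases s <;> simp
  | succ k ih =>
    cases s with
    | zero => simp
    | succ s =>
      rw [tl_succ]
      have := ih s
      have := ih (s + 1)
      have : 0 ≤ 1 - y := by linarith
      positivity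

lemma tl_le_one {y : ℝ} (h0 : 0 ≤ y) (h1 : y ≤ 1) (k s : ℕ) : tl y k s ≤ 1 := by
  induction k generalizing s with
  | zero => cases s <;> simp
  | succ k ih =>
    cases s with
    | zero => simp
    | succ s =>
      rw [tl_succ]
      have h2 := ih s
      have h3 := ih (s + 1)
      have : 0 ≤ 1 - y := by linarith
      nlinarith

/-- The tail is zero when fewer than `s` trials are made. -/
lemma tl_eq_zero (y : ℝ) {k s : ℕ} (h : k < s) : tl y k s = 0 := by
  induction k generalizing s with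
  | zero => obtain ⟨s, rfl⟩ : ∃ t, s = t + 1 := ⟨s - 1, by omega⟩; simp
  | succ k ih =>
    obtain ⟨s, rfl⟩ : ∃ t, s = t + 1 := ⟨s - 1, by omega⟩
    rw [tl_succ, ih (by omega), ih (by omega)]; ring

lemma tl_zero (k s : ℕ) : tl 0 k (s + 1) = 0 := by
  induction k with
  | zero => simp
  | succ k ih => rw [tl_succ, ih]; ring

lemma tl_anti {y : ℝ} (h0 : 0 ≤ y) (h1 : y ≤ 1) (k s : ℕ) : tl y k (s + 1) ≤ tl y k s := by
  induction k generalizing s with
  | zero => cases s <;> simp
  | succ k ih =>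
    cases s with
    | zero => simpa using tl_le_one h0 h1 (k + 1) 1
    | succ s =>
      rw [tl_succ, tl_succ]
      have := ih s
      have := ih (s + 1)
      have : 0 ≤ 1 - y := by linarith
      gcongr

lemma tl_continuous (k s : ℕ) : Continuous fun y => tl y k s := by
  induction k generalizing s with
  | zero => cases s <;> simp <;> fun_prop
  | succ k ih =>
    cases s with
    | zero => simp; fun_prop
    | succ s =>
      simp only [tl_succ]
      have := ih s
      have := ih (s + 1)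
      fun_prop

/-- The union bound `P(Bin(k,y) ≥ s) ≤ (k y)^s`. -/
lemma tl_le_pow {y : ℝ} (h0 : 0 ≤ y) (h1 : y ≤ 1) (k s : ℕ) : tl y k s ≤ (k * y) ^ s := by
  induction k generalizing s with
  | zero => cases s <;> simp
  | succ k ih =>
    cases s with
    | zero => simp
    | succ s =>
      rw [tl_succ]
      have h2 := ih s
      have h3 := ih (s + 1)
      have h4 : 0 ≤ 1 - y := by linarith
      have h5 : 0 ≤ tl y k (s + 1) := tl_nonneg h0 h1 _ _
      have h6 : (0 : ℝ) ≤ k * y := by positivity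
      have h7 : (k * y : ℝ) ^ s ≤ ((k + 1 : ℕ) * y) ^ s := by
        push_cast; gcongr; linarith
      have h8 : (0 : ℝ) ≤ (k * y) ^ s := by positivity
      calc (1 - y) * tl y k (s + 1) + y * tl y k s
          ≤ 1 * (k * y) ^ (s + 1) + y * (k * y) ^ s := by
            gcongr <;> linarith
        _ = (k * y) ^ s * ((k + 1 : ℕ) * y) := by push_cast; ring
        _ ≤ ((k + 1 : ℕ) * y) ^ s * ((k + 1 : ℕ) * y) := by gcongr
        _ = ((k + 1 : ℕ) * y) ^ (s + 1) := by ring

/-- `y d/dy P(Bin(k,y) ≥ s) = s P(Bin(k,y) = s)`. -/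
lemma tl_hasDeriv (k s : ℕ) (y : ℝ) :
    ∃ d, HasDerivAt (fun y => tl y k s) d y ∧ y * d = s * (tl y k s - tl y k (s + 1)) := by
  induction k generalizing s with
  | zero =>
    cases s with
    | zero => exact ⟨0, by simpa using hasDerivAt_const y (1 : ℝ), by simp⟩
    | succ s => exact ⟨0, by simpa using hasDerivAt_const y (0 : ℝ), by simp⟩
  | succ k ih =>
    cases s with
    | zero => exact ⟨0, by simpa using hasDerivAt_const y (1 : ℝ), by simp⟩
    | succ s =>
      obtain ⟨d0, h0, e0⟩ := ih s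
      obtain ⟨d1, h1, e1⟩ := ih (s + 1)
      have hy : HasDerivAt (fun y : ℝ => y) 1 y := hasDerivAt_id y
      have h2 := ((hy.const_sub 1).mul h1).add (hy.mul h0)
      refine ⟨_, h2, ?_⟩
      simp only [tl_succ]
      push_cast at e1 ⊢
      linear_combination (1 - y) * e1 + y * e0

/-- An antiderivative of `P(Bin(k,y) ≥ s+1) / y^2`. -/
noncomputable def prim (k s : ℕ) (y : ℝ) : ℝ := (∑ j ∈ Finset.range k, tl y j s) / s

lemma prim_hasDeriv (k : ℕ) {s : ℕ} (hs : 1 ≤ s) {y : ℝ} (hy : 0 < y) :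
    HasDerivAt (prim k s) (tl y k (s + 1) / y ^ 2) y := by
  have hs' : (0 : ℝ) < s := by exact_mod_cast hs
  choose d hd he using fun j => tl_hasDeriv j s y
  have h1 : HasDerivAt (fun y => ∑ j ∈ Finset.range k, tl y j s)
      (∑ j ∈ Finset.range k, d j) y := by
    exact HasDerivAt.fun_sum (fun j _ => hd j)
  have h2 := h1.div_const (s : ℝ)
  have h3 : (∑ j ∈ Finset.range k, d j) / s = tl y k (s + 1) / y ^ 2 := by
    have h4 : ∀ j, d j = s * ((tl y (j + 1) (s + 1) - tl y j (s + 1)) / y ^ 2) := by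
      intro j
      have := he j
      rw [tl_succ]
      field_simp
      linear_combination (y) * this
    have h5 : ∑ j ∈ Finset.range k, d j
        = s * ((∑ j ∈ Finset.range k, (tl y (j + 1) (s + 1) - tl y j (s + 1))) / y ^ 2) := by
      rw [Finset.sum_div, Finset.mul_sum]
      exact Finset.sum_congr rfl fun j _ => h4 j
    rw [h5, Finset.sum_range_sub (fun j => tl y j (s + 1))]
    simp
    field_simp
  rw [← h3]
  exact h2

lemma prim_nonneg (k s : ℕ) {y : ℝ} (h0 : 0 ≤ y) (h1 : y ≤ 1) : 0 ≤ prim k s y := by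
  unfold prim
  have : 0 ≤ ∑ j ∈ Finset.range k, tl y j s :=
    Finset.sum_nonneg fun j _ => tl_nonneg h0 h1 j s
  positivity

lemma tl_one (k s : ℕ) : tl 1 k s = if s ≤ k then 1 else 0 := by
  induction k generalizing s with
  | zero => cases s <;> simp
  | succ k ih =>
    cases s with
    | zero => simp
    | succ s => rw [tl_succ, ih, ih]; simp

lemma prim_one {k s : ℕ} (hs : 1 ≤ s) (hk : s ≤ k) : prim k s 1 = k / s - 1 := by
  have hs' : (0 : ℝ) < s := by exact_mod_cast hs
  unfold prim
  have h1 : ∑ j ∈ Finset.range k, tl 1 j s = (k : ℝ) - s := by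
    have : ∀ j ∈ Finset.range k, tl 1 j s = if s ≤ j then (1 : ℝ) else 0 := fun j _ => tl_one j s
    rw [Finset.sum_congr rfl this, ← Finset.sum_filter, Finset.sum_const, nsmul_eq_mul, mul_one]
    have : (Finset.range k).filter (fun j => s ≤ j) = Finset.Ico s k := by
      ext j; simp; tauto
    rw [this, Nat.card_Ico, Nat.cast_sub hk]
  rw [h1]; field_simp

/-- The integral of `P(Bin(k,y) ≥ r) / y^2` over `(p,1)` is at most `k/(r-1) - 1`. -/
lemma lintegral_tl_le {k s : ℕ} (hs : 1 ≤ s) (hk : s ≤ k) {p : ℝ} (hp : 0 < p) (hp1 : p < 1) :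
    ∫⁻ y in Ioo p 1, ENNReal.ofReal (tl y k (s + 1) / y ^ 2) ≤ ENNReal.ofReal (k / s - 1) := by
  have hd : ∀ y ∈ uIcc p 1, HasDerivAt (prim k s) (tl y k (s + 1) / y ^ 2) y := by
    intro y hy
    rw [uIcc_of_le hp1.le] at hy
    exact prim_hasDeriv k hs (hp.trans_le hy.1)
  have hc : ContinuousOn (fun y : ℝ => tl y k (s + 1) / y ^ 2) (uIcc p 1) := by
    rw [uIcc_of_le hp1.le]
    refine ContinuousOn.div (tl_continuous k (s + 1)).continuousOn (by fun_prop) ?_
    intro y hy
    have : 0 < y := hp.trans_le hy.1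
    positivity
  have hI := intervalIntegral.integral_eq_sub_of_hasDerivAt hd hc.intervalIntegrable
  have hint : IntegrableOn (fun y : ℝ => tl y k (s + 1) / y ^ 2) (Ioo p 1) := by
    have := (hc.intervalIntegrable (μ := volume)).1
    exact this.mono_set Ioo_subset_Ioc_self
  have hnn : 0 ≤ᵐ[volume.restrict (Ioo p 1)] fun y : ℝ => tl y k (s + 1) / y ^ 2 := by
    refine (ae_restrict_iff' measurableSet_Ioo).2 (ae_of_all _ fun y hy => ?_)
    have : 0 ≤ tl y k (s + 1) := tl_nonneg (hp.trans hy.1).le hy.2.le _ _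
    positivity
  rw [← ofReal_integral_eq_lintegral_ofReal hint hnn]
  apply ENNReal.ofReal_le_ofReal
  rw [← integral_Ioc_eq_integral_Ioo, ← intervalIntegral.integral_of_le hp1.le, hI, prim_one hs hk]
  have := prim_nonneg k s hp.le hp1.le
  linarith

/-- The integral of `(y-p)/((1-p) y^2)` over `(p,1)`. -/
lemma lintegral_low {p : ℝ} (hp : 0 < p) (hp1 : p < 1) :
    ENNReal.ofReal (Real.log (1 / p) / (1 - p) - 1) ≤
      ∫⁻ y in Ioo p 1, ENNReal.ofReal ((y - p) / (1 - p) / y ^ 2) := by
  have h1p : 0 < 1 - p := by linarith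
  have hd : ∀ y ∈ uIcc p 1, HasDerivAt (fun y => (Real.log y + p * y⁻¹) / (1 - p))
      ((y - p) / (1 - p) / y ^ 2) y := by
    intro y hy
    rw [uIcc_of_le hp1.le] at hy
    have hy0 : 0 < y := hp.trans_le hy.1
    have h1 := Real.hasDerivAt_log hy0.ne'
    have h2 := (hasDerivAt_inv hy0.ne').const_mul p
    have h3 := (h1.add h2).div_const (1 - p)
    have h4 : (y - p) / (1 - p) / y ^ 2 = (y⁻¹ + p * (-(y ^ 2)⁻¹)) / (1 - p) := by
      field_simp
      ring
    rw [h4]
    exact h3
  have hc : ContinuousOn (fun y : ℝ => (y - p) / (1 - p) / y ^ 2) (uIcc p 1) := by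
    rw [uIcc_of_le hp1.le]
    refine ContinuousOn.div (by fun_prop) (by fun_prop) ?_
    intro y hy
    have : 0 < y := hp.trans_le hy.1
    positivity
  have hI := intervalIntegral.integral_eq_sub_of_hasDerivAt hd hc.intervalIntegrable
  have hint : IntegrableOn (fun y : ℝ => (y - p) / (1 - p) / y ^ 2) (Ioo p 1) := by
    have := (hc.intervalIntegrable (μ := volume)).1
    exact this.mono_set Ioo_subset_Ioc_self
  have hnn : 0 ≤ᵐ[volume.restrict (Ioo p 1)] fun y : ℝ => (y - p) / (1 - p) / y ^ 2 := by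
    refine (ae_restrict_iff' measurableSet_Ioo).2 (ae_of_all _ fun y hy => ?_)
    have : 0 ≤ y - p := by linarith [hy.1]
    positivity
  rw [← ofReal_integral_eq_lintegral_ofReal hint hnn]
  apply ENNReal.ofReal_le_ofReal
  rw [← integral_Ioc_eq_integral_Ioo, ← intervalIntegral.integral_of_le hp1.le, hI]
  rw [Real.log_one, one_div, Real.log_inv]
  apply le_of_eq
  field_simp
  ring

end Q291.GW
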